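import Pool.Agent.H50.AVG.Ase
import Pool.Agent.H57.AVN.Lit

/-!
# The pair of places is full in the boxes

`VfPG`: the fullness `VfP` of the places `v`, `v + 1` in all boxes at a point, for near paths of the
base with few digits of the velocity.
-/

set_option autoImplicit false

namespace Pool.AVG50

open Finset Real MvPolynomial
open Pool.Agent.H49.Ent Pool.Agent.H32.Dense Pool.STK Pool.KA Pool.KSAT Pool.K2S Pool.PB Pool.GEN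
open Pool.S6C Pool.RCD Pool.LA91 Pool.AVG96 Pool.AVG57 Pool.OWN68 Pool.OWN83 Pool.CDX

variable {m : ℕ}

/-- **The places `v`, `v + 1` are full in the boxes** at `g`, for near paths of the base with few
digits of the velocity. `C`: the size of the boxes, `Cd`: the digits of the lower places, `ν₀`: the
margin of the boxes; `C₁`: the room between the record of `x` and the near digits. -/
def VfPG (S : PCl m) (c : ℕ → Fin m) (r₀ v K : ℕ) (C₁ A B Λ : ℝ) (sn : ℝ → ℕ → ℝ) (G : Set ℝ)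
    (g : ℝ) (Sl : ℕ → ℝ) : Prop :=
  ∀ e C Cd ν₀ : ℝ, 0 < e → 0 < C → 0 < Cd → 0 < ν₀ → ∃ (k : ℕ) (φ : ℝ), 0 < φ ∧
    ∀ A₁ B₁ Λ₁ p₀ lam : ℚ, IxV A B Λ A₁ B₁ Λ₁ p₀ lam → (A₁ : ℝ) < g → g < B₁ →
    (lam : ℝ) ≤ (1 / 8) ^ k → ∃ ρ : ℝ, 0 < ρ ∧ ∀ R : ℝ, 0 < R → R < ρ → ∀ w ∈ G,
    ∀ j x : ℝ, g - R ≤ w → x ≤ g + R → ∀ (δW q ξ μ ν φ' : ℝ) (p s D : ℕ → ℝ),
    (∀ l, r₀ ≤ l → l < v → 2 * C + 1 ≤ D l ∧ D l ≤ Cd ∧ D (l + 1) + 1 ≤ D l) →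
    Bx2 sn r₀ (v + 1) Sl w j x δW q ξ μ ν φ' (C * R) p s → φ' ≤ φ * R → ν₀ * R ≤ ν →
    (∀ l, r₀ ≤ l → l ≤ v + 1 → Sl l * (x - w) + C₁ * (ξ + μ + ν) ≤ q) →
    VfP S (yZT ((range r₀).image c) p₀ lam) c r₀ v K w x p (nB r₀ p₀ sn w D R)
      (nB r₀ (lam + w) sn w D R) (s v + q) (s v + q + ξ) (s v + (q + ξ + μ + ν) - w)
      (s (v + 1) + q) (s (v + 1) + q + ξ) (e * R)

/-- A larger error. -/
theorem vfP_mono {S : PCl m} {γ : ∀ J : ℕ, Fam m J → Type}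
    {y : ∀ (J : ℕ) (F : Fam m J), F.Ω → γ J F} {c : ℕ → Fin m} {r₀ v K : ℕ} {w x : ℝ}
    {p n n' : ℕ → ℝ} {Na Nb Nd Mu Mb θ θ' : ℝ}
    (h : VfP S y c r₀ v K w x p n n' Na Nb Nd Mu Mb θ) (hθ : θ ≤ θ') :
    VfP S y c r₀ v K w x p n n' Na Nb Nd Mu Mb θ' := by
  obtain ⟨k', hk', e₀, he₀, H⟩ := h
  refine ⟨k', hk', e₀, he₀, fun K₀ => Bas.mono 0 (H K₀) ?_⟩
  rintro J - F A H V₁ V₂ z zx hz hzx u₀ a b d g bu hu₀ ha hb hd' hg hbu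
  refine le_trans ?_ (H V₁ V₂ z zx hz hzx u₀ a b d g bu hu₀ ha hb hd' hg hbu)
  exact mul_le_mul_of_nonneg_right (by linarith) (Nat.cast_nonneg J)

end Pool.AVG50
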