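import Pool.Agent.H50.AVG.Asg
import Pool.Agent.H57.AVN.Lit
import Pool.Agent.H71.CDX.Cdw

/-!
# The closed gradient of the second place below the target: codes and rows in the boxes

The moved place is `v`, the spectator `v + 1` is above it, the target is `v + 2`. `JtU`: the codes of
the target from the record of a later window, the places `v`, `v + 1` known to near digits; `jtU_of`.
`row2_pt`: the rows of the target, both places known to the same depth.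
-/

set_option autoImplicit false

namespace Pool.AVG50

open Finset Real MvPolynomial
open Pool.Agent.H49.Ent Pool.Agent.H32.Dense Pool.STK Pool.KA Pool.KSAT Pool.K2S Pool.PB Pool.GEN
open Pool.S6C Pool.RCD Pool.LA91 Pool.AVG96 Pool.AVG57 Pool.OWN68 Pool.OWN83 Pool.CDX

variable {m : ℕ} {S : PCl m} {c : ℕ → Fin m} {r₀ v K : ℕ} {s₀ A B Λ : ℝ} {sn : ℝ → ℕ → ℝ}
  {G : Set ℝ} {g : ℝ} {Sl : ℕ → ℝ}

/-- **The codes of the target** in the boxes of the scale `R`, both places `v`, `v + 1` near. -/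
def JtB {γ : ∀ J : ℕ, Fam m J → Type} (S : PCl m) (y : ∀ (J : ℕ) (F : Fam m J), F.Ω → γ J F)
    (c : ℕ → Fin m) (r₀ v K : ℕ) (sn : ℝ → ℕ → ℝ) (G : Set ℝ) (g : ℝ) (Sl : ℕ → ℝ)
    (e C ν₀ Cn κ R : ℝ) : Prop :=
  ∀ w ∈ G, g - R ≤ w → ∀ x : ℝ, w ≤ x → x ≤ g + R → ∀ (p s n : ℕ → ℝ) (q ν : ℝ),
    (∀ l, r₀ ≤ l → l ≤ v + 2 → sn w l - κ * R ≤ p l) →
    (∀ l, v ≤ l → l ≤ v + 2 → s l = sn w l) →
    (∀ l, r₀ ≤ l → l < v → sn w l + Cn * R ≤ n l) →
    (∀ l, r₀ ≤ l → l ≤ v + 1 → Sl l * (x - w) + ν ≤ q) → q ≤ Sl (v + 2) * (x - w) →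
    q ≤ C * R → ν₀ * R ≤ ν →
    CdC S y c (v + 2) K 0 w x (p (v + 2)) (s (v + 2) + q - ν) (e * R)
      (qJets m c r₀ (v + 2) (K + 2) (fun _ _ => w) (fun l _ => p l)
        (fun l j' => nt2 s n q ν v l - (j' : ℝ) * w))

/-- **The codes of the target** in the boxes at `g`; the numbers do not depend on `y`. -/
def JtU (S : PCl m) (c : ℕ → Fin m) (r₀ v K : ℕ) (s₀ : ℝ) (sn : ℝ → ℕ → ℝ) (G : Set ℝ) (g : ℝ)
    (Sl : ℕ → ℝ) (Lb : ℝ → ℝ → ℝ → Prop) : Prop :=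
  ∀ e C ν₀ : ℝ, 0 < e → 0 < C → 0 < ν₀ → ∃ Cn κ : ℝ, 0 < Cn ∧ 0 < κ ∧
    ∀ (γ : ∀ J : ℕ, Fam m J → Type) (y : ∀ (J : ℕ) (F : Fam m J), F.Ω → γ J F) (A B Λ : ℝ),
      GCh S (fun J F => ptr F J) y c r₀ (v + 2) s₀ A B Λ sn G → A < g → g < B →
      ∃ ρ : ℝ, 0 < ρ ∧ ∀ R : ℝ, 0 < R → R < ρ → Lb Cn κ R →
        JtB S y c r₀ v K sn G g Sl e C ν₀ Cn κ R

/-- **The codes of the target**, from the rows. -/
theorem jtU_of (hS : SlpG sn r₀ (v + 2) G g Sl) (hr : r₀ ≤ v) (hm : Sl v ≤ Sl (v + 1))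
    (hσ : 1 ≤ Sl (v + 2)) {hd : ℝ} (hh : 0 < hd) (hh1 : hd ≤ 1)
    (hraw : RawG S c sn G g hd (v + 2)) :
    JtU S c r₀ v K s₀ sn G g Sl
      (fun Cm κ R => LbR S c r₀ K sn G g (Cm * R) (Cm * R) (κ * R) (v + 2)) := by
  intro e C ν₀ he hC hν
  have hS1 : ∀ l, r₀ ≤ l → l ≤ v + 2 → 1 ≤ Sl l := fun l a b => by
    rcases Nat.lt_or_ge l (v + 2) with h1 | h1
    · exact (hS.gt l a h1).le
    · obtain rfl : l = v + 2 := by omega
      exact hσ
  obtain ⟨Sb, hSb0, hSb⟩ := ex_max (v + 3) Sl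
  have hSb1 : 1 ≤ Sb := hσ.trans (hSb (v + 2) (by omega))
  obtain ⟨ν₁, hν₁⟩ : ∃ ν₁, ν₁ = ν₀ / (4 * Sb) := ⟨_, rfl⟩
  have hν₁0 : 0 < ν₁ := by rw [hν₁]; positivity
  have hνS : 4 * (Sb * ν₁) = ν₀ := by rw [hν₁]; field_simp
  obtain ⟨Cn, κ, d1, d2, H⟩ := jt_atU2 (s₀ := s₀) (K := K) hS (by omega) hS1 hh hh1 hraw he hC
    hν₁0
  refine ⟨Cn + 2, κ, by linarith, d2, fun γ y A B Λ h hgA hgB => ?_⟩
  obtain ⟨ρ, hρ, H⟩ := H γ y A B Λ h hgA hgB
  refine ⟨ρ, hρ, ?_⟩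
  intro R hR hRρ hlb w hw w1 x hwx x2 p s n q ν hp hs hn hx hq hqC hνν
  have hCnR : 0 < Cn * R := by positivity
  have eCn : (Cn + 2) * R = Cn * R + 2 * R := by ring
  have hνR : 0 < ν₀ * R := by positivity
  have hxw : 0 ≤ x - w := by linarith
  have sv := hs v le_rfl (by omega)
  have s1 := hs (v + 1) (by omega) (by omega)
  have s2 := hs (v + 2) (by omega) le_rfl
  have e1 : Sl (v + 2) * (x - w) ≤ Sb * (x - w) :=
    mul_le_mul_of_nonneg_right (hSb (v + 2) (by omega)) hxw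
  have e2 : 1 * (x - w) ≤ Sl v * (x - w) :=
    mul_le_mul_of_nonneg_right (hS1 v hr (by omega)) hxw
  have e3 : ν₁ * R ≤ x - w := by
    have h1 : Sb * (4 * (ν₁ * R)) ≤ Sb * (x - w) := by
      have h2 : Sb * (4 * (ν₁ * R)) = ν₀ * R := by rw [← hνS]; ring
      have h3 := hx v hr (by omega)
      linarith
    have := le_of_mul_le_mul_left h1 hSb0
    have h2 := mul_pos hν₁0 hR
    linarith
  have e4 : ν₁ * R ≤ ν₀ * R / 4 := by
    have h1 : 1 * (ν₁ * R) ≤ Sb * (ν₁ * R) :=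
      mul_le_mul_of_nonneg_right hSb1 (mul_pos hν₁0 hR).le
    have h2 : 4 * (Sb * (ν₁ * R)) = ν₀ * R := by rw [← hνS]; ring
    linarith
  have hxv := hx v hr (by omega)
  have hx1 := hx (v + 1) (by omega) le_rfl
  have hm2 : Sl (v + 1) ≤ Sl (v + 2) := by
    by_contra hc
    rw [not_le] at hc
    have h4 : Sl (v + 2) * (x - w) ≤ Sl (v + 1) * (x - w) := mul_le_mul_of_nonneg_right hc.le hxw
    linarith
  refine H R hR hRρ (hlb.mono (by linarith) (by linarith) le_rfl) w hw w1 x hwx x2 p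
    (nt2 s n q ν v) (q - ν) _ hp (fun l a b => ?_) (fun l a b => ?_) (fun l a b => ?_)
    (fun l a b b' => ?_) (by linarith) (by linarith) (by linarith) (by rw [s2]; linarith)
  · unfold nt2
    rw [if_pos (by omega)]
    have := hn l a (by omega)
    linarith
  · obtain rfl : l = v := by omega
    unfold nt2
    rw [if_neg (by omega), if_pos rfl, sv]
    exact ⟨by linarith, by linarith⟩
  · obtain rfl : l = v + 1 := by omega
    unfold nt2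
    rw [if_neg (by omega), if_neg (by omega), s1]
    exact ⟨by linarith, by linarith⟩
  · rcases Nat.lt_or_ge v l with h1 | h1
    · obtain rfl : l = v + 1 := by omega
      exact hm2
    · obtain rfl : l = v := by omega
      exact hm

/-- **The rows in the boxes**, the places `v`, `v + 1` known to the same depth. -/
theorem row2_pt {γ : ∀ J : ℕ, Fam m J → Type} {y : ∀ (J : ℕ) (F : Fam m J), F.Ω → γ J F}
    (h : GCh S (fun J F => ptr F J) y c r₀ (v + 2) s₀ A B Λ sn G) (hr : r₀ ≤ v)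
    (hV : ∀ w ∈ G, A ≤ w → w < B → AtV S c r₀ w) (hgA : A < g) (hgB : g < B)
    (hSl : SlpG sn r₀ (v + 2) G g Sl) (hσ : 1 < Sl (v + 2)) (hT : AtTg S c (v + 2) sn G g)
    (hyW : ∀ (J : ℕ) (F : Fam m J), ∃ ψ : γ J F → F.ζ × ℕ, ∀ ω, ψ (y J F ω) = (F.Z ω, F.T ω))
    {hd : ℝ} (hd1 : hd ≤ 1) (hraw : RawG S c sn G g hd (v + 2)) {ξ₀ C θ : ℝ} (hξ : 0 < ξ₀)
    (hC : 0 < C) (hθ : 0 < θ) (hθ1 : θ ≤ 1) :
    ∃ φ : ℝ, 0 < φ ∧ ∃ ρ : ℝ, 0 < ρ ∧ ∀ R : ℝ, 0 < R → R < ρ → ∀ w ∈ G, g - R ≤ w →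
      ∀ (j x δW q ξ μ ν φ' : ℝ) (p s n n' : ℕ → ℝ), x ≤ g + R →
        Bx1 sn r₀ (v + 1) Sl w j x δW q ξ μ ν φ' (C * R) p s n n' →
        q ≤ Sl (v + 2) * (x - w) → φ' ≤ φ * R → ξ₀ * R ≤ ξ →
        ∀ P₁ P₂ : ℝ, s (v + 2) ≤ P₁ → P₁ ≤ P₂ → P₂ ≤ s (v + 2) + q + ξ + θ * ξ →
          RwC S y c r₀ (v + 1) w p (nr2 s n (q + ξ) v) P₁ P₂ hd (θ * ξ) := by
  by_cases hS : ∀ l, r₀ ≤ l → l ≤ v + 1 → Sl l ≤ Sl (v + 2)
  · obtain ⟨φ, hφ, ρ₁, hρ₁, H⟩ := rwc_gen (v := v + 1) h (by omega) hV hgA hgB hSl hσ hS hT hyW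
      hd1 hξ hC (show 0 < θ * ξ₀ / 16 by positivity)
    obtain ⟨ρ₂, hρ₂, H2⟩ := hraw (θ * ξ₀ / 16) (2 * C) (by positivity) (by positivity)
    refine ⟨φ, hφ, min ρ₁ ρ₂, lt_min hρ₁ hρ₂, ?_⟩
    intro R hR hRρ w hw hw1 j x δW q ξ μ ν φ' p s n n' hx N hxq hφ' hξR P₁ P₂ h1 h2 h3
    have r1 := hRρ.trans_le (min_le_left _ _)
    have r2 := hRρ.trans_le (min_le_right _ _)
    have hw2 : w ≤ g + R := N.wx.trans hx
    have hst := N.sc (v + 2) (by omega) le_rfl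
    have hq := N.q0
    have hξ' := N.ξ0
    have hμ := N.μ0
    have hqC := N.qC
    have hl2 : 0 < Real.log 2 := Real.log_pos one_lt_two
    have hθξ : θ * ξ ≤ ξ := by
      have := mul_le_mul_of_nonneg_right hθ1 hξ'.le
      linarith
    have hs0 : 0 ≤ s (v + 2) := by
      rw [hst]
      exact (N.p0 (v + 2) (by omega) le_rfl).trans (N.pc (v + 2) (by omega) le_rfl).2
    have h4 := H R hR r1 w hw hw1 hw2 (q + ξ) p (nr2 s n (q + ξ) v) P₁ P₂ (θ * ξ₀ / 16 * R)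
      (by linarith) (by linarith) (fun l a b => by linarith [(N.pc l a b).1]) (fun l a b => by
        unfold nr2
        by_cases hl : l < v
        · rw [if_pos hl]
          obtain ⟨c1, c2, -⟩ := N.nc l a b
          constructor <;> linarith
        · rw [if_neg hl, N.sc l a (by omega)]
          constructor <;> linarith)
      (hst ▸ hs0) (hs0.trans h1) h2 (fun Q₁ Q₂ a1 _ a3 a4 => by
        have a5 : sn w (v + 2) ≤ Q₁ := by
          rw [← hst]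
          exact (le_min h1 (hst ▸ le_rfl)).trans a1
        refine rawN_sub (H2 R hR r2 w hw hw1 hw2 (Q₂ - sn w (v + 2)) (by linarith) ?_) a5
          (by ring)
        have e1 : 2 * C * R = C * R + C * R := by ring
        rw [e1, ← hst]
        linarith)
    refine rwc_mono h4 ?_
    have e1 : P₂ - (sn w (v + 2) + (q + ξ)) ≤ θ * ξ := by
      rw [← hst]
      linarith
    have e2 : max 0 (P₂ - (sn w (v + 2) + (q + ξ))) * Real.log 2 ≤ θ * ξ * (7 / 8) := by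
      have h6 : max 0 (P₂ - (sn w (v + 2) + (q + ξ))) ≤ θ * ξ := max_le (by positivity) e1
      have h7 : Real.log 2 ≤ 7 / 8 := by
        have := Real.log_two_lt_d9
        linarith
      calc max 0 (P₂ - (sn w (v + 2) + (q + ξ))) * Real.log 2 ≤ θ * ξ * Real.log 2 :=
            mul_le_mul_of_nonneg_right h6 hl2.le
        _ ≤ _ := mul_le_mul_of_nonneg_left h7 (by positivity)
    have e3 : θ * (ξ₀ * R) ≤ θ * ξ := mul_le_mul_of_nonneg_left hξR hθ.le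
    have e4 : θ * ξ₀ / 16 * R = θ * (ξ₀ * R) / 16 := by ring
    rw [e4]
    change θ * (ξ₀ * R) / 16 + max 0 (P₂ - (sn w (v + 2) + (q + ξ))) * Real.log 2 +
      θ * (ξ₀ * R) / 16 ≤ θ * ξ
    linarith
  · refine ⟨1, one_pos, 1, one_pos, ?_⟩
    intro R hR hRρ w hw hw1 j x δW q ξ μ ν φ' p s n n' hx N hxq hφ' hξR
    exfalso
    apply hS
    intro l l0 l1
    have h1 := N.xn l l0 l1
    have h2 := N.ν0
    have h3 : Sl l * (x - w) < Sl (v + 2) * (x - w) := by linarith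
    have h4 : 0 ≤ x - w := by linarith [N.wx]
    exact (lt_of_mul_lt_mul_right h3 h4).le

end Pool.AVG50
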