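import Pool.Agent.H50.AVN.Sfp
import Pool.Agent.H71.FUL.Fur

/-!
# The pair of the places 1, 2 is full at almost every window: all slopes with `Sl 1 < Sl 2 + 1`

`aePG_vfp1`, `aeSw_vfp1`: `VfPQ 1` from `FulQ`, for the list and for the swapped list.
-/

set_option autoImplicit false

namespace Pool.AVG50

open Finset Real MvPolynomial MeasureTheory Filter
open Pool.Agent.H49.Ent Pool.Agent.H32.Dense Pool.STK Pool.KA Pool.KSAT Pool.K2S Pool.PB Pool.S6C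
open Pool.GEN Pool.CHT Pool.CHX Pool.ISO Pool.RCD Pool.LA91 Pool.AVG96 Pool.CDX
open Pool.PKG Pool.OWN68 Pool.OWN83 Pool.D2F2 Pool.AVG57 Pool.FUL95
open Pool.TOP (TopS)

/-- **The pair of places is full** at almost every `g`: all slopes with `Sl 1 < Sl 2 + 1`. -/
theorem vfPG_all {m : ℕ} {S : PCl m} {c : ℕ → Fin m} {s₀ A B Λ : ℝ} {sn : ℝ → ℕ → ℝ} {G : Set ℝ}
    (X : AsmC S c 1 2 s₀ A B Λ sn G) :
    ∀ᵐ g : ℝ, A < g → g < B → ∀ Sl : ℕ → ℝ, SlpG sn 1 3 G g Sl → Sl 1 < Sl 2 + 1 →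
      (Sl 1 < 2 ∨ AfG S c sn G g 1) → AfG S c sn G g 2 → FulG S c sn G g →
      ∀ (K : ℕ) (C₁ : ℝ), Sl 1 - 1 ≤ C₁ → 1 / (Sl 2 + 1 - Sl 1) ≤ C₁ →
      VfPG S c 1 1 K C₁ A B Λ sn G g Sl := by
  filter_upwards [vfPG_t3 X, (ae_all_iff.2 fun K => Pool.FUL71.vfPG_ful X K)] with g h1 h2 hA hB
    Sl hS hlt haf1 haf2 hful K C₁ hC hC'
  rcases le_total (Sl 1) (Sl 2) with h | h
  · exact h1 hA hB Sl hS h haf1 haf2 hful K C₁ hC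
  · exact h2 K hA hB Sl hS h hlt C₁ hC' haf2 haf1 hful

/-- **The pair of the places `1`, `2` is full**, as a property of the windows, from the fullness of
the places `1`, `2` behind their own paths. -/
theorem aePG_vfp1 {n : ℕ} (hn4 : 4 ≤ n) {Φ : (ℕ → ℝ) → Prop} {C₁ : (ℕ → ℝ) → ℝ}
    (hC : ∀ Sl : ℕ → ℝ, Φ Sl → Sl 1 - 1 ≤ C₁ Sl ∧ 1 / (Sl 2 + 1 - Sl 1) ≤ C₁ Sl)
    (hful : AePG n (FulQ Φ : PropG n Unit)) :
    AePG n (VfPQ 1 (fun Sl => Φ Sl ∧ Sl 1 < Sl 2 + 1) C₁ : PropG n ℕ) := by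
  intro hn S P r P' Λ PB PQ H hTop hF o G hG hGs
  obtain ⟨S₁, a1, a2, a3⟩ := aePG_af n hn S P r P' Λ PB PQ H hTop hF o G hG hGs
  have H₁ := H.sub a1 a2
  obtain ⟨S₂, b1, b2, b3⟩ := asmC_all H₁.toPkT hTop hF hG hGs (v := 2) (by norm_num) (by omega)
  have H₂ := H₁.sub b1 b2
  obtain ⟨S₃, c1, c2, c3⟩ := hful hn S₂ P r P' Λ PB PQ H₂ hTop hF o G hG hGs
  refine ⟨S₃, c1, fun τ J F A h => a2 τ J F A (b2 τ J F A (c2 τ J F A h)), ?_⟩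
  have hall : ∀ᵐ g : ℝ, ∀ x : {x : ℚ × ℚ × ℚ // 0 ≤ x.1 ∧ 0 < x.2.2 ∧ x.2.1 + x.2.2 ≤ 1},
      (x.1.1 : ℝ) < g → g < x.1.2.1 → ∀ Sl : ℕ → ℝ,
      SlpG (fun w l => LvL hn P P' o l w w) 1 3 G g Sl → Sl 1 < Sl 2 + 1 →
      (Sl 1 < 2 ∨ AfG S₃ (cc hn o.1.1) (fun w l => LvL hn P P' o l w w) G g 1) →
      AfG S₃ (cc hn o.1.1) (fun w l => LvL hn P P' o l w w) G g 2 →
      FulG S₃ (cc hn o.1.1) (fun w l => LvL hn P P' o l w w) G g →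
      ∀ (K : ℕ) (C : ℝ), Sl 1 - 1 ≤ C → 1 / (Sl 2 + 1 - Sl 1) ≤ C →
      VfPG S₃ (cc hn o.1.1) 1 1 K C x.1.1 x.1.2.1 x.1.2.2 (fun w l => LvL hn P P' o l w w) G g
        Sl := by
    rw [ae_all_iff]
    rintro ⟨⟨A, B, Λ'⟩, k1, k2, k3⟩
    have k1' : (0 : ℝ) ≤ (A : ℝ) := by exact_mod_cast k1
    have k2' : (0 : ℝ) < (Λ' : ℝ) := by exact_mod_cast k2
    have k3' : (B : ℝ) + Λ' ≤ 1 := by exact_mod_cast k3
    by_cases hAB : (A : ℝ) < B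
    · exact vfPG_all ((b3 A B Λ' k1' k2' k3' (by linarith) (by linarith)).sub c1 c2)
    · exact Eventually.of_forall fun g h1 h2 => absurd (h1.trans h2) hAB
  filter_upwards [hall, gap_ae hG, c3, a3] with g h1 h2 h3 h0 hg κ hκ p
  refine ⟨0, fun Sl hd hΦ hS A B Λ' hA hAg hgB hΛ hB => ?_⟩
  obtain ⟨_, h4⟩ := h3 hg κ hκ ()
  obtain ⟨_, h5⟩ := h0 hg κ hκ ()
  have d1 : deriv (fun a => LvL hn P P' o 1 a a) g = Sl 1 := (hd 1 le_rfl (by norm_num)).deriv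
  have h6 := h5 (by omega) (by rw [d1]; exact hS 1 le_rfl (by norm_num))
  have hs : ∀ (τ : ℝ) (J : ℕ) (F : Fam n J) (A : F.Ω → Prop), S₃.St τ J F A →
      S₁.St τ J F A := fun τ J F A h => b2 τ J F A (c2 τ J F A h)
  have hslp : SlpG (fun w l => LvL hn P P' o l w w) 1 3 G g Sl :=
    slpG_of (fun l l0 l1 => by linarith [hS l l0 l1]) (fun l l0 l1 => hS l l0 (by omega))
      (fun l l0 l1 => (hd l l0 l1).hasDerivWithinAt) (h2 hg)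
  exact h1 ⟨(A, B, Λ'), hA, hΛ, hB⟩ hAg hgB Sl hslp hΦ.2 (Or.inr (h6.1.sub hs)) (h6.2.sub hs)
    (h4 Sl hd hΦ.1 hS) p (C₁ Sl) (hC Sl hΦ.1).1 (hC Sl hΦ.1).2

end Pool.AVG50

namespace Pool.SWP

open Finset Real MvPolynomial MeasureTheory Filter Topology
open Pool.Agent.H49.Ent Pool.Agent.H32.Dense Pool.STK Pool.KA Pool.KSAT Pool.K2S Pool.PB Pool.S6C
open Pool.GEN Pool.CHT Pool.CHX Pool.ISO Pool.RCD Pool.LA91 Pool.AVG96 Pool.AVG50 Pool.CDX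
open Pool.PKG Pool.OWN68 Pool.OWN83 Pool.D2F2 Pool.AVG57 Pool.FUL95 Pool.FUL71
open Pool.TOP (TopS)

/-- **The pair of the places `1`, `2` of the swapped list is full**, as a property of the windows. -/
theorem aeSw_vfp1 {n : ℕ} (hn4 : 4 ≤ n) {Φ : (ℕ → ℝ) → Prop} {C₁ : (ℕ → ℝ) → ℝ}
    (hC : ∀ Sl : ℕ → ℝ, Φ Sl → Sl 1 - 1 ≤ C₁ Sl ∧ 1 / (Sl 2 + 1 - Sl 1) ≤ C₁ Sl)
    (hful : AeSw n 1 (FulQ Φ : PropG n Unit)) :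
    AeSw n 1 (VfPQ 1 (fun Sl => Φ Sl ∧ Sl 1 < Sl 2 + 1) C₁ : PropG n ℕ) := by
  intro hn S P r P' Λ PB PQ H hTop hF o G hG hGs hdg hsw
  obtain ⟨S₁, a1, a2, a3⟩ := aeSw_af (by omega) hn S P r P' Λ PB PQ H hTop hF o G hG hGs hdg hsw
  have H₁ := H.sub a1 a2
  have hsw₁ : ∀ w ∈ G, SwA S₁ (cc hn o.1.1) (LvL hn P P' o) 1 w := fun w hw => (hsw w hw).sub a2
  obtain ⟨S₂, b1, b2, b3⟩ := asmC_sw H₁.toPkT hTop hF hG hGs le_rfl (by omega) hsw₁ (v := 2)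
    (by norm_num) (by omega)
  have H₂ := H₁.sub b1 b2
  obtain ⟨S₃, c1, c2, c3⟩ := hful hn S₂ P r P' Λ PB PQ H₂ hTop hF o G hG hGs hdg
    fun w hw => (hsw₁ w hw).sub b2
  refine ⟨S₃, c1, fun τ J F A h => a2 τ J F A (b2 τ J F A (c2 τ J F A h)), ?_⟩
  obtain ⟨c, hc⟩ : ∃ c : ℕ → Fin n, c = fun l => cc hn o.1.1 (sw 1 l) := ⟨_, rfl⟩
  obtain ⟨sn, hsn⟩ : ∃ sn : ℝ → ℕ → ℝ, sn = fun w l => LvL hn P P' o (sw 1 l) w w := ⟨_, rfl⟩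
  rw [← hc, ← hsn] at b3
  have hall : ∀ᵐ g : ℝ, ∀ x : {x : ℚ × ℚ × ℚ // 0 ≤ x.1 ∧ 0 < x.2.2 ∧ x.2.1 + x.2.2 ≤ 1},
      (x.1.1 : ℝ) < g → g < x.1.2.1 → ∀ Sl : ℕ → ℝ,
      SlpG sn 1 3 G g Sl → Sl 1 < Sl 2 + 1 →
      (Sl 1 < 2 ∨ AfG S₃ c sn G g 1) → AfG S₃ c sn G g 2 → FulG S₃ c sn G g →
      ∀ (K : ℕ) (C : ℝ), Sl 1 - 1 ≤ C → 1 / (Sl 2 + 1 - Sl 1) ≤ C →
      VfPG S₃ c 1 1 K C x.1.1 x.1.2.1 x.1.2.2 sn G g Sl := by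
    rw [ae_all_iff]
    rintro ⟨⟨A, B, Λ'⟩, k1, k2, k3⟩
    have k1' : (0 : ℝ) ≤ (A : ℝ) := by exact_mod_cast k1
    have k2' : (0 : ℝ) < (Λ' : ℝ) := by exact_mod_cast k2
    have k3' : (B : ℝ) + Λ' ≤ 1 := by exact_mod_cast k3
    by_cases hAB : (A : ℝ) < B
    · exact vfPG_all ((b3 A B Λ' k1' k2' k3' (by linarith) (by linarith)).sub c1 c2)
    · exact Eventually.of_forall fun g h1 h2 => absurd (h1.trans h2) hAB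
  filter_upwards [hall, gap_ae hG, c3, a3] with g h1 h2 h3 h0 hg κ hκ p
  rw [← hc] at h3 h0 ⊢
  refine ⟨0, fun Sl hd hΦ hS A B Λ' hA hAg hgB hΛ hB => ?_⟩
  obtain ⟨_, h4⟩ := h3 hg κ hκ ()
  obtain ⟨_, h5⟩ := h0 hg κ hκ ()
  have e1 : (fun w l => (fun l => LvL hn P P' o (sw 1 l)) l w w) = sn := by rw [hsn]
  have h7 := h4 Sl hd hΦ.1 hS
  have h6 := h5 (by
      rw [(hd 1 le_rfl (by norm_num)).deriv]
      exact hS 1 le_rfl (by norm_num)) (by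
      rw [(hd 2 (by norm_num) (by norm_num)).deriv]
      exact hS 2 (by norm_num) (by norm_num))
  rw [e1] at h6 h7 ⊢
  have hs : ∀ (τ : ℝ) (J : ℕ) (F : Fam n J) (A : F.Ω → Prop), S₃.St τ J F A →
      S₁.St τ J F A := fun τ J F A h => b2 τ J F A (c2 τ J F A h)
  have hslp : SlpG sn 1 3 G g Sl :=
    slpG_of (fun l l0 l1 => by linarith [hS l l0 l1]) (fun l l0 l1 => hS l l0 (by omega))
      (fun l l0 l1 => by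
        rw [hsn]
        exact (hd l l0 l1).hasDerivWithinAt) (h2 hg)
  exact h1 ⟨(A, B, Λ'), hA, hΛ, hB⟩ hAg hgB Sl hslp hΦ.2 (Or.inr (h6.1.sub hs)) (h6.2.sub hs)
    h7 p (C₁ Sl) (hC Sl hΦ.1).1 (hC Sl hΦ.1).2

end Pool.SWP
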