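import Pool.Agent.H50.AVN.Nta

/-!
# The closed gradient of the second place below the target: the inputs in the boxes

`c2r_pt`: the inputs `C2R` in all boxes at a point, from the codes, the far levels and the fullness of
the pair.
-/

set_option autoImplicit false

namespace Pool.AVG50

open Finset Real MvPolynomial
open Pool.Agent.H49.Ent Pool.Agent.H32.Dense Pool.STK Pool.KA Pool.KSAT Pool.K2S Pool.PB Pool.GEN
open Pool.S6C Pool.RCD Pool.LA91 Pool.AVG96 Pool.AVG57 Pool.OWN68 Pool.OWN83 Pool.CDX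

variable {m : ℕ} {γ : ∀ J : ℕ, Fam m J → Type} {S : PCl m}
  {y : ∀ (J : ℕ) (F : Fam m J), F.Ω → γ J F} {c : ℕ → Fin m} {r₀ v K : ℕ}
  {s₀ A B Λ : ℝ} {sn : ℝ → ℕ → ℝ} {G : Set ℝ} {g : ℝ} {Sl : ℕ → ℝ}

/-- **The inputs `C2R` in all boxes at a point**, for given digits `D` of the chain and far windows
`a`. -/
theorem c2r_pt (h : GCh S (fun J F => ptr F J) y c r₀ (v + 2) s₀ A B Λ sn G) (hr : r₀ ≤ v)
    (hV : ∀ w ∈ G, A ≤ w → w < B → AtV S c r₀ w) (hgA : A < g) (hgB : g < B)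
    (hSl : SlpG sn r₀ (v + 2) G g Sl) (hσ : 1 < Sl (v + 2)) (hT : AtTg S c (v + 2) sn G g)
    (hyW : ∀ (J : ℕ) (F : Fam m J), ∃ ψ : γ J F → F.ζ × ℕ, ∀ ω, ψ (y J F ω) = (F.Z ω, F.T ω))
    {hd : ℝ} (hd1 : hd ≤ 1) (hraw : RawG S c sn G g hd (v + 2)) {b lam : ℝ} (hb : B ≤ b)
    (hbl : b ≤ A + lam)
    (hbase : ∀ (e w : ℝ) (p n n' : ℕ → ℝ), 0 < e → A ≤ w → w ≤ 1 → (∀ l < r₀, n l = b) →
      (∀ l < r₀, n' l = lam + w) → YfC S y c r₀ w p n n' e ∧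
      (∀ l < r₀, CdC S y c l K 0 w w (p l) (n l) e (Qt.fn fun _ _ _ => ())) ∧
      ∀ l < r₀, CdC S y c l K 1 w w (p l) (n' l) e (Qt.fn fun _ _ _ => ()))
    {ξ₀ ν₀ C C₁ θ Cm κ ρ₂ σ₀ : ℝ} {a lv : ℕ → ℝ} (hξ : 0 < ξ₀) (hC : 0 < C) (hθ : 0 < θ) (hθ1 : θ ≤ 1)
    (hρ₂ : 0 < ρ₂)
    (hF : FarR sn G r₀ (v + 2) a Λ (g - ρ₂) (g + ρ₂) lv σ₀) (hC1 : (C + Cm) * ρ₂ ≤ σ₀ / 2)
    {D : ℕ → ℝ} (hC₁ : C + 1 ≤ C₁) (D1 : ∀ l, r₀ ≤ l → l ≤ v + 1 → C + 1 ≤ D l)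
    (D3 : ∀ l, r₀ ≤ l → l ≤ v + 1 → D l ≤ Cm) (hCm : 0 < Cm) (hκ : 0 < κ) {Lb : ℝ → Prop}
    (hcod : ∃ ρ : ℝ, 0 < ρ ∧ ∀ R : ℝ, 0 < R → R < ρ →
      Lb R → CodB S y c r₀ (v + 1) K sn G g Sl (θ * ξ₀) C₁ ν₀ D Cm κ R)
    {Cn κ₁ : ℝ} (hκ₁ : 0 < κ₁) (D4 : ∀ l, r₀ ≤ l → l < v → Cn ≤ D l)
    (hjt : ∃ ρ : ℝ, 0 < ρ ∧ ∀ R : ℝ, 0 < R → R < ρ →
      Lb R → JtB S y c r₀ v K sn G g Sl (θ * ξ₀) C ν₀ Cn κ₁ R) :
    ∃ φ ρ : ℝ, 0 < φ ∧ 0 < ρ ∧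
      ∀ R : ℝ, 0 < R → R < ρ → Lb R → ∀ w ∈ G, ∀ j x : ℝ, g - R ≤ w → j ≤ g + R →
        x ≤ g + R → ∀ (δW q ξ μ ν φ' : ℝ) (p s : ℕ → ℝ),
        Bx2 sn r₀ (v + 1) Sl w j x δW q ξ μ ν φ' (C * R) p s → φ' ≤ φ * R → ξ₀ * R ≤ ξ →
        ν₀ * R ≤ ν →
        VfP S y c r₀ v K w x p (nB r₀ b sn w D R) (nB r₀ (lam + w) sn w D R) (s v + q)
          (s v + q + ξ) (s v + (q + ξ + μ + ν) - w) (s (v + 1) + q) (s (v + 1) + q + ξ)
          (θ * ξ) →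
        C2R S y c r₀ v K sn a w x q ξ μ ν p s (nB r₀ b sn w D R) (nB r₀ (lam + w) sn w D R) hd
          (s (v + 2)) (s (v + 2) + q + ξ + θ * ξ) (θ * ξ) := by
  obtain ⟨ρ₁, b3, H1⟩ := hcod
  obtain ⟨ρ₅, b5, H5⟩ := hjt
  obtain ⟨C₂, hC₂⟩ : ∃ C₂, C₂ = C + Cm := ⟨_, rfl⟩
  rw [← hC₂] at hC1
  have hC₂0 : 0 < C₂ := by rw [hC₂]; linarith
  obtain ⟨φ₃, hφ₃, ρ₃, hρ₃, H3⟩ := row2_pt h hr hV hgA hgB hSl hσ hT hyW hd1 hraw hξ hC₂0 hθ hθ1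
  obtain ⟨ρ₄, hρ₄, q1, q2⟩ : ∃ ρ₄ : ℝ, 0 < ρ₄ ∧ (1 + C + C) * ρ₄ ≤ B - g ∧ ρ₄ ≤ g - A := by
    have q1 : 0 < B - g := by linarith
    refine ⟨min ((B - g) / (1 + C + C)) (g - A), lt_min (by positivity) (by linarith), ?_,
      min_le_right _ _⟩
    have h2 := mul_le_mul_of_nonneg_left (min_le_left ((B - g) / (1 + C + C)) (g - A))
      (show (0 : ℝ) ≤ 1 + C + C by linarith)
    have h3 : (1 + C + C) * ((B - g) / (1 + C + C)) = B - g := by field_simp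
    linarith
  refine ⟨min φ₃ (min κ κ₁), min (min ρ₁ ρ₂) (min (min ρ₃ ρ₅) ρ₄),
    lt_min hφ₃ (lt_min hκ hκ₁), lt_min (lt_min b3 hρ₂) (lt_min (lt_min hρ₃ b5) hρ₄), ?_⟩
  intro R hR hRρ hLb w hw j x w1 j2 x2 δW q ξ μ ν φ' p s N hφ' hξR hνR hvf
  have r1 := hRρ.trans_le ((min_le_left _ _).trans (min_le_left _ _))
  have r2 := hRρ.trans_le ((min_le_left _ _).trans (min_le_right _ _))
  have r3 := hRρ.trans_le ((min_le_right _ _).trans ((min_le_left _ _).trans (min_le_left _ _)))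
  have r5 := hRρ.trans_le ((min_le_right _ _).trans ((min_le_left _ _).trans (min_le_right _ _)))
  have r4 := hRρ.trans_le ((min_le_right _ _).trans (min_le_right _ _))
  have hφ3 : φ' ≤ φ₃ * R := hφ'.trans (mul_le_mul_of_nonneg_right (min_le_left _ _) hR.le)
  have hφκ : φ' ≤ κ * R := hφ'.trans (mul_le_mul_of_nonneg_right
    ((min_le_right _ _).trans (min_le_left _ _)) hR.le)
  have hφκ₁ : φ' ≤ κ₁ * R := hφ'.trans (mul_le_mul_of_nonneg_right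
    ((min_le_right _ _).trans (min_le_right _ _)) hR.le)
  have hwx := N.wx
  have hξ' := N.ξ0
  have hμ := N.μ0
  have hqC := N.qC
  have hCR : 0 < C * R := by positivity
  have e1 : (1 + C + C) * R < (1 + C + C) * ρ₄ := mul_lt_mul_of_pos_left r4 (by linarith)
  have e2 : (1 + C + C) * R = R + C * R + C * R := by ring
  have hAw : A ≤ w := by linarith
  have hwB : w < B := by linarith
  have hB1 := h.B1
  have eC2 : C₂ * R = C * R + Cm * R := by rw [hC₂]; ring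
  have hCmR : 0 < Cm * R := by positivity
  have hD1 : ∀ l, r₀ ≤ l → l ≤ v + 1 → C * R < D l * R := fun l l0 l1 =>
    mul_lt_mul_of_pos_right (by linarith [D1 l l0 l1]) hR
  have hD3 : ∀ l, r₀ ≤ l → l ≤ v + 1 → D l * R ≤ C₂ * R := fun l l0 l1 => by
    have := mul_le_mul_of_nonneg_right (D3 l l0 l1) hR.le
    linarith
  have N1 : Bx1 sn r₀ (v + 1) Sl w j x δW q ξ μ ν φ' (C₂ * R) p s (nB r₀ b sn w D R)
      (nB r₀ (lam + w) sn w D R) := N.bx1 (by linarith) (by linarith) hD1 (by linarith) hD3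
  have hη : θ * ξ₀ * R ≤ θ * ξ := by
    rw [mul_assoc]
    exact mul_le_mul_of_nonneg_left hξR hθ.le
  have hfar : ∀ j : ℕ, j ≤ 1 → sn w (v + 1) + Cm * R ≤ nD sn a (v + 1) j + (j : ℝ) * w :=
    fun j hj => by
      have k1 := hF.far hw (by linarith) (by linarith) (by omega) (Nat.lt_succ_self (v + 1)) hj
      have k2 := hF.lv0 (v + 1) (by omega) (Nat.lt_succ_self (v + 1))
      have k3 := hF.σ0
      have k4 : C₂ * R ≤ C₂ * ρ₂ := mul_le_mul_of_nonneg_left r2.le hC₂0.le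
      linarith
  have hC₁R : C * R + R ≤ C₁ * R := by
    have := mul_le_mul_of_nonneg_right hC₁ hR.le
    linarith
  obtain ⟨t1, t2, -⟩ := H1 R hR r1 hLb w hw w1 x hwx x2 a p s (nB r₀ b sn w D R)
    (nB r₀ (lam + w) sn w D R) q ξ ν (fun l l0 l1 => by linarith [(N.pc l l0 l1).1])
    (N.sc (v + 1) (by omega) (by omega)) (N.sc (v + 2) (by omega) le_rfl) (fun l l0 l1 => by
      rw [nB_ge l0, nB_ge l0]
      exact ⟨by linarith, le_rfl, rfl⟩) hfar N.xn N.xq hξ'.le (by linarith) hνR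
  have t3 := H5 R hR r5 hLb w hw w1 x hwx x2 p s (nB r₀ b sn w D R) q ν
    (fun l l0 l1 => by linarith [(N.pc l l0 l1).1]) (fun l l0 l1 => N.sc l (hr.trans l0) l1)
    (fun l l0 l1 => by
      rw [nB_ge l0]
      have := mul_le_mul_of_nonneg_right (D4 l l0 l1) hR.le
      linarith) N.xn N.xq (by linarith) hνR
  obtain ⟨u1, u2, u3⟩ := hbase (θ * ξ) w p (nB r₀ b sn w D R) (nB r₀ (lam + w) sn w D R)
    (by positivity) hAw (by linarith) (fun l hl => nB_lt hl) (fun l hl => nB_lt hl)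
  exact
    { yW := hyW
      yf := u1
      y0 := u2
      y1 := u3
      cd := fun l l0 l1 => cdC_mono (t1 l l0 l1) le_rfl hη
      dj := cdC_mono t2 le_rfl hη
      jt := cdC_mono t3 le_rfl hη
      vf := hvf
      row := H3 R hR r3 w hw w1 j x δW q ξ μ ν φ' p s _ _ x2 N1 N.xq hφ3 hξR }

end Pool.AVG50
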