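import Pool.Agent.H50.AVG.Asb
import Pool.Agent.H57.AVN.C2s

/-!
# The closed gradient of the second place below the target: the mutual informations

`num2`: the numbers `C2N` of a box. `c2x_ae`: the inputs `C2X` at almost every `g`.
-/

set_option autoImplicit false

namespace Pool.AVG50

open Finset Real MvPolynomial MeasureTheory Filter Topology
open Pool.Agent.H49.Ent Pool.Agent.H32.Dense Pool.STK Pool.KA Pool.KSAT Pool.K2S Pool.PB Pool.GEN
open Pool.S6C Pool.RCD Pool.LA91 Pool.AVG96 Pool.AVG57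

variable {m : ℕ} {γ : ∀ J : ℕ, Fam m J → Type} {S : PCl m}
  {y : ∀ (J : ℕ) (F : Fam m J), F.Ω → γ J F} {c : ℕ → Fin m} {r₀ v K : ℕ}
  {s₀ A B Λ : ℝ} {sn : ℝ → ℕ → ℝ} {G : Set ℝ} {Sl a : ℕ → ℝ}
  {w j x δW q ξ μ ν φ C η η' : ℝ} {p s n n' : ℕ → ℝ}

/-- **The numbers** of a box, two near places. -/
theorem num2 (N : Bx1 sn r₀ (v + 1) Sl w j x δW q ξ μ ν φ C p s n n') (hr : r₀ ≤ v)
    (hνq : ν ≤ q) (hw0 : 0 ≤ w) (hw1 : w + δW + ξ < 1)
    (hv : ∀ l, v ≤ l → l ≤ v + 1 → ∀ j' ≤ 1, sn w l + C < nD sn a l j' + (j' : ℕ) * w)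
    (ht : sn w (v + 2) + C < nD sn a (v + 2) 0) :
    C2N r₀ v w δW p s n n' (nt2 s n q ν v) (nr2 s n (q + ξ) v) q ξ μ (s (v + 2) + q + ξ)
      (s (v + 2) + q - ν) (s v + q + ξ) (s (v + 1) + q + ξ) (s (v + 1) + q) (nD sn a)
      (dn2 s n n' w (q - ν / 4) v) (dn2 s n n' w (q - ν / 4) v) (ddN sn a n n' w (v + 1))
      (nD sn a (v + 2)) (enN s w (q - ν / 2) (v + 1)) (nvN s w q (q + ξ + μ + ν) v) := by
  have hq := N.q0
  have hξ := N.ξ0
  have hμ := N.μ0
  have hν := N.ν0
  have hδ := N.δ0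
  have h1 := N.δν
  have h2 := N.δξ
  have h3 := N.φν
  have h4 := N.φμ
  have hC := N.qC
  have sv := N.sc v hr (by omega)
  have su := N.sc (v + 1) (by omega) (by omega)
  have st := N.sc (v + 2) (by omega) le_rfl
  have pv := N.pc v hr (by omega)
  have pu := N.pc (v + 1) (by omega) (by omega)
  have pt := N.pc (v + 2) (by omega) le_rfl
  have hv0 := hv v le_rfl (by omega) 0 (by omega)
  have hv1 := hv v le_rfl (by omega) 1 le_rfl
  have hu0 := hv (v + 1) (by omega) le_rfl 0 (by omega)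
  have hu1 := hv (v + 1) (by omega) le_rfl 1 le_rfl
  push_cast at hv0 hv1 hu0 hu1
  obtain ⟨-, nv, nv'⟩ := N.nc v hr (by omega)
  have p0v := N.p0 v hr (by omega)
  have dv : ∀ (d : ℝ) (j' : ℕ), dn2 s n n' w d v v j' = s v - (j' : ℝ) * w + d := fun d j' => by
    unfold dn2
    rw [if_neg (by omega)]
  have du : ∀ (d : ℝ) (j' : ℕ), dn2 s n n' w d v (v + 1) j' = s (v + 1) - (j' : ℝ) * w + d :=
    fun d j' => by
      unfold dn2
      rw [if_neg (by omega)]
  have dl : ∀ (d : ℝ) (l j' : ℕ), l < v → dn2 s n n' w d v l j' = nd n n' w l j' :=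
    fun d l j' hl => by
      unfold dn2
      rw [if_pos hl]
  have tv : nt2 s n q ν v v = s v + (q - ν / 4) := by
    unfold nt2
    rw [if_neg (by omega), if_pos rfl]
  have tu : nt2 s n q ν v (v + 1) = s (v + 1) + (q - ν / 2) := by
    unfold nt2
    rw [if_neg (by omega), if_neg (by omega)]
  have e4 : enN s w (q - ν / 2) (v + 1) 0 = s (v + 2) + (q - ν / 2) := by
    unfold enN
    push_cast
    ring
  have e5 : enN s w (q - ν / 2) (v + 1) 1 = s (v + 2) - w + (q - ν / 2) := by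
    unfold enN
    push_cast
    ring
  have e6 : nvN s w q (q + ξ + μ + ν) v 0 = s v + q := by
    unfold nvN
    rw [if_pos rfl]
  have e7 : nvN s w q (q + ξ + μ + ν) v 1 = s v + (q + ξ + μ + ν) - w := by
    unfold nvN
    rw [if_neg one_ne_zero]
  exact
    { rv := hr
      ps := fun l hl => by
        rcases Nat.lt_or_ge l r₀ with h0 | h0
        · obtain ⟨b1, b2, -, -⟩ := N.base l h0
          exact ⟨b1, b2⟩
        · exact ⟨N.p0 l h0 hl, by rw [N.sc l h0 hl]; exact (N.pc l h0 hl).2⟩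
      w0 := hw0
      δ0 := hδ
      w1 := hw1
      q0 := hq
      ξ0 := hξ
      μ0 := hμ
      n0 := by rw [dv]; push_cast; linarith only [h3, hν, pv.1, sv]
      n1 := by rw [dv]; push_cast; linarith only [h3, h2, hμ, hν, pv.1, sv]
      ns := fun l _ h2 j' _ => dl _ l j' h2
      nu0 := by rw [du]; push_cast; linarith only [h3, hν, pu.1, su]
      nu1 := by rw [du]; push_cast; linarith only [h3, hν, pu.1, su]
      x0 := by rw [dv]; push_cast; linarith only [h3, hν, pv.1, sv]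
      x1 := by rw [dv]; push_cast; linarith only [h3, h2, hμ, hν, pv.1, sv]
      xs := fun l _ h2 j' _ => dl _ l j' h2
      xu := fun _ _ => rfl
      t0 := by rw [tv]; linarith only [hνq, hν, p0v, pv.2, sv]
      u0 := by rw [tv]; linarith only [h3, hν, pv.1, sv]
      u1 := by rw [tv]; linarith only [h3, h2, hμ, hν, pv.1, sv]
      us := fun l _ h2 => by
        unfold nt2
        rw [if_pos h2]
      uu := by rw [tu]; linarith only [h3, hν, pu.1, su]
      tx0 := by rw [tv, dv]; push_cast; linarith only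
      tx1 := by rw [tv, dv]; push_cast; linarith only
      m0 := by rw [e4]; linarith only [h3, hν, pt.1, st]
      m1 := by rw [e5]; linarith only [h3, h1, hν, pt.1, st]
      mf := by linarith only [ht, hC, hμ, st]
      f0 := by linarith only [hv0, hC, sv]
      f1 := by linarith only [hv1, hC, sv]
      fv := fun j' hj' => by
        unfold nd
        rcases Nat.eq_zero_or_pos j' with rfl | hj
        · rw [if_pos rfl]
          linarith only [nv, hv0]
        · obtain rfl : j' = 1 := by omega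
          rw [if_neg (by omega), nv']
          push_cast
          linarith only [nv, hv1]
      g0 := by linarith only [hu0, hC, su]
      g1 := by linarith only [hu1, hC, su]
      v0 := by rw [e6]
      v1 := by rw [e7]; linarith only [hν]
      b0 := le_rfl
      b1 := by linarith only [pv.1, sv, h4]
      b2 := by rw [e6]
      bu := le_rfl
      mu0 := le_rfl
      c0 := fun l hl => by
        rcases Nat.lt_or_ge l r₀ with h0 | h0
        · obtain ⟨-, -, b1, -⟩ := N.base l h0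
          exact b1
        · obtain ⟨b1, -, -⟩ := N.nc l h0 hl
          rw [N.sc l h0 (by omega)]
          exact b1
      c1 := fun l hl => by
        obtain ⟨-, -, -, b1⟩ := N.base l hl
        exact b1
      c2 := fun l l0 l1 => by
        obtain ⟨-, -, b1⟩ := N.nc l l0 l1
        exact b1
      d0 := le_rfl
      ds := fun l _ l1 j' _ => by
        unfold ddN
        rw [if_neg (by omega)]
      du := fun j' _ => by
        unfold ddN
        rw [if_pos rfl]
      r0 := fun l hl => by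
        unfold nr2
        rw [if_pos hl]
      rv' := by
        unfold nr2
        rw [if_neg (by omega)]
        ring
      ru := by
        unfold nr2
        rw [if_neg (by omega)]
        ring }

/-- A larger error. -/
theorem c2x_mono (X : C2X S y c r₀ v sn a w j x δW q ξ μ ν p s n n' η) (h : η ≤ η') :
    C2X S y c r₀ v sn a w j x δW q ξ μ ν p s n n' η' where
  num := X.num
  tm := X.tm
  wj := X.wj
  j1 := X.j1
  wx := X.wx
  x1 := X.x1
  mj := X.mj.le h
  mx := X.mx.le h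

/-- **The numbers and the mutual informations at almost every `g`**, two near places. -/
theorem c2x_ae (h : GCh S (fun J F => ptr F J) y c r₀ (v + 2) s₀ A B Λ sn G)
    (hn : HNum S (fun J F => ptr F J) y c r₀ (v + 2) s₀ (PG G A s₀) (B - s₀) Λ (whG G A s₀)
      (scG sn G A s₀)) (hr : r₀ ≤ v) :
    ∀ᵐ g : ℝ, A < g → g < B → ∀ Sl : ℕ → ℝ, SlpG sn r₀ (v + 2) G g Sl → 1 < Sl (v + 2) →
      ∀ e ν₀ C δ : ℝ, 0 < e → 0 < ν₀ → 0 < C → 0 < δ → ∃ φ : ℝ, 0 < φ ∧ ∃ a : ℕ → ℝ,
        (∀ l, r₀ ≤ l → l ≤ v + 2 → a l ∈ G ∧ g < a l ∧ a l < g + δ ∧ a l < B) ∧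
        ∃ ρ : ℝ, 0 < ρ ∧ ∃ (lv : ℕ → ℝ) (σ₀ : ℝ),
          FarR sn G r₀ (v + 2) a Λ (g - ρ) (g + ρ) lv σ₀ ∧ C * ρ ≤ σ₀ / 2 ∧
          C * ρ + σ₀ / 2 ≤ Λ ∧
          ∀ R : ℝ, 0 < R → R < ρ → ∀ w ∈ G, ∀ j x : ℝ, g - R ≤ w → j ≤ g + R → x ≤ g + R →
            ∀ (δW q ξ μ ν φ' : ℝ) (p s n n' : ℕ → ℝ), ν₀ * R ≤ ν → φ' ≤ φ * R →
            Bx1 sn r₀ (v + 1) Sl w j x δW q ξ μ ν φ' (C * R) p s n n' →
            C2X S y c r₀ v sn a w j x δW q ξ μ ν p s n n' (e * R) := by
  filter_upwards [mj_Gr h hn (hr.trans (Nat.le_add_right v 2))] with g hg hgA hgB Sl hSl hσ e ν₀ C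
    δ he hν hC hδ
  have hφ : (0 : ℝ) < ν₀ / 8 / (16 * (((v + 2 : ℕ) : ℝ) + 2)) := by positivity
  obtain ⟨a, ha, lv, σ₀, ρ₁, hρ₁, hρA, hρB, hF, hC1, hC2, -, H⟩ :=
    hg hgA hgB Sl hSl e (ν₀ / 8) C δ _ he (by positivity) hC hδ hφ.le (by
      rw [mul_div_cancel₀ _ (by positivity)])
  obtain ⟨φ, hφe⟩ : ∃ φ, φ = ν₀ / 8 / (16 * (((v + 2 : ℕ) : ℝ) + 2)) := ⟨_, rfl⟩
  rw [← hφe] at hφ H
  obtain ⟨hb1, hb2, -, hb3⟩ := ha (v + 2) (by omega) le_rfl
  obtain ⟨γ₀, hγ₀, ρ₂, hρ₂, Hf⟩ := far_T hSl (by omega) hσ hgA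
    (h.mono (v + 2) (by omega) le_rfl) hb1 hb2 hb3
  obtain ⟨ρ₃, hρ₃, Hs⟩ := hSl.sl (v + 2) (by omega) le_rfl (ν₀ / 2) (by positivity)
  have hσ0 := hF.σ0
  obtain ⟨ρ, hρ, r1, r2, r3, r4, r5⟩ : ∃ ρ : ℝ, 0 < ρ ∧ ρ ≤ ρ₁ ∧ ρ ≤ ρ₂ ∧ ρ ≤ ρ₃ ∧
      C * ρ < γ₀ ∧ (1 + C) * ρ ≤ B - g := by
    have q1 : 0 < B - g := by linarith
    refine ⟨min (min ρ₁ ρ₂) (min ρ₃ (min (γ₀ / (2 * C)) ((B - g) / (1 + C)))), by positivity,
      (min_le_left _ _).trans (min_le_left _ _), (min_le_left _ _).trans (min_le_right _ _),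
      (min_le_right _ _).trans (min_le_left _ _), ?_, ?_⟩
    · have h1 := (min_le_right (min ρ₁ ρ₂) (min ρ₃ (min (γ₀ / (2 * C)) ((B - g) / (1 + C))))).trans
        ((min_le_right _ _).trans (min_le_left _ _))
      have h2 := mul_le_mul_of_nonneg_left h1 hC.le
      have h3 : C * (γ₀ / (2 * C)) = γ₀ / 2 := by field_simp
      linarith
    · have h1 := (min_le_right (min ρ₁ ρ₂) (min ρ₃ (min (γ₀ / (2 * C)) ((B - g) / (1 + C))))).trans
        ((min_le_right _ _).trans (min_le_right _ _))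
      have h2 := mul_le_mul_of_nonneg_left h1 (show (0 : ℝ) ≤ 1 + C by linarith)
      have h3 : (1 + C) * ((B - g) / (1 + C)) = B - g := by field_simp
      linarith
  have hCρ : C * ρ ≤ C * ρ₁ := mul_le_mul_of_nonneg_left r1 hC.le
  have hF' := hF.mono (A'' := g - ρ) (B'' := g + ρ) (by linarith) (by linarith)
  refine ⟨φ, hφ, a, ha, ρ, hρ, lv, σ₀, hF', by linarith, by linarith, ?_⟩
  intro R hR hRρ w hw j x w1 j2 x2 δW q ξ μ ν φ' p s n n' hνR hφ' N
  have hCR : C * R < C * ρ := mul_lt_mul_of_pos_left hRρ hC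
  have hCR' : (1 + C) * R ≤ (1 + C) * ρ := mul_le_mul_of_nonneg_left hRρ.le (by linarith)
  have eCR : (1 + C) * R = R + C * R := by ring
  have hνR0 : 0 < ν₀ * R := by positivity
  have eκ : ν₀ / 8 * R = ν₀ * R / 8 := by ring
  have hq := N.q0
  have hξ := N.ξ0
  have hμ := N.μ0
  have hν' := N.ν0
  have hwj := N.wj
  have hwx := N.wx
  have hqC := N.qC
  have hδν := N.δν
  have hA0 := h.A0
  have hB1 := h.B1
  have hwB : w < B := by linarith
  have st := N.sc (v + 2) (by omega) le_rfl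
  have hσt := hSl.nn (v + 2) (by omega) le_rfl
  have hqν : ν ≤ q := by
    have k1 := N.jn (v + 2) (by omega) le_rfl
    have k2 := mul_nonneg hσt (show 0 ≤ j - w by linarith)
    linarith only [k1, k2]
  -- the near digits
  have hd1 : q - ν / 4 ≤ C * R := by linarith
  have hD : ∀ l, r₀ ≤ l → l < v + 2 → ∀ j' ≤ 1,
      sn w l - (j' : ℕ) * w + (q - ν / 4) ≤ dn2 s n n' w (q - ν / 4) v l j' ∧
      dn2 s n n' w (q - ν / 4) v l j' ≤ sn w l - (j' : ℕ) * w + C * R := by
    intro l l0 l1 j' hj'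
    rcases Nat.lt_or_ge l v with h0 | h0
    · obtain ⟨k1, k2, k3⟩ := N.nc l l0 (by omega)
      have e1 : dn2 s n n' w (q - ν / 4) v l j' = n l - (j' : ℝ) * w := by
        unfold dn2 nd
        rw [if_pos h0]
        rcases Nat.eq_zero_or_pos j' with rfl | hj
        · rw [if_pos rfl]
          push_cast
          ring
        · rw [if_neg (by omega), k3]
      rw [e1]
      constructor <;> linarith
    · have e1 : dn2 s n n' w (q - ν / 4) v l j' = sn w l - (j' : ℝ) * w + (q - ν / 4) := by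
        unfold dn2
        rw [if_neg (by omega), N.sc l l0 (by omega)]
      rw [e1]
      constructor <;> linarith
  have hp : Rgh sn r₀ (v + 2) w (φ * R) p := fun l l0 l1 => by
    obtain ⟨k1, k2⟩ := N.pc l l0 l1
    exact ⟨by linarith, k2⟩
  have Mj := H R hR (by linarith) w hw j w1 hwj j2 p hp (q - ν / 4)
    (dn2 s n n' w (q - ν / 4) v) hd1 (fun l l0 l1 => by
      have k1 := N.jn l l0 (by omega)
      rw [eκ]
      linarith) hD
  have Mx := H R hR (by linarith) w hw x w1 hwx x2 p hp (q - ν / 4)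
    (dn2 s n n' w (q - ν / 4) v) hd1 (fun l l0 l1 => by
      have k1 := N.xn l l0 (by omega)
      rw [eκ]
      linarith) hD
  obtain ⟨f1, f2⟩ := Hf w hw (by linarith) (by linarith)
  have hT : ∀ j' ≤ 1, enN s w (q - ν / 2) (v + 1) j' ≤ nD sn a (v + 2) j' := by
    intro j' hj'
    unfold enN nD
    rcases Nat.eq_zero_or_pos j' with rfl | hj
    · push_cast
      linarith
    · obtain rfl : j' = 1 := by omega
      push_cast
      linarith
  have hE : ∀ j' ≤ 1, (∀ o ∈ G, A ≤ o → o ≤ j → sn o (v + 2) - (j' : ℕ) * o ≤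
      enN s w (q - ν / 2) (v + 1) j') ∧
      enN s w (q - ν / 2) (v + 1) j' ≤ sn w (v + 2) - (j' : ℕ) * w + C * R ∧
      enN s w (q - ν / 2) (v + 1) j' ≤ nD sn a (v + 2) j' := by
    intro j' hj'
    have hj0 : (0 : ℝ) ≤ j' := Nat.cast_nonneg j'
    have hj1 : (j' : ℝ) ≤ 1 := by exact_mod_cast hj'
    refine ⟨fun o ho o1 o2 => ?_, ?_, hT j' hj'⟩
    · unfold enN
      rcases le_or_gt w o with k | k
      · have k1 := (abs_le.1 (Hs R hR (by linarith) w hw o ho w1 k (by linarith))).2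
        have k2 := N.jn (v + 2) (by omega) le_rfl
        have k3 : Sl (v + 2) * (o - w) ≤ Sl (v + 2) * (j - w) :=
          mul_le_mul_of_nonneg_left (by linarith) hσt
        have k4 : (j' : ℝ) * w ≤ (j' : ℝ) * o := mul_le_mul_of_nonneg_left k hj0
        have k5 : ν₀ / 2 * R = ν₀ * R / 2 := by ring
        linarith
      · have k1 := h.mono (v + 2) (by omega) le_rfl o ho w hw o1 k.le hwB
        have k4 : (1 - (j' : ℝ)) * o ≤ (1 - (j' : ℝ)) * w :=
          mul_le_mul_of_nonneg_left k.le (by linarith)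
        linarith
    · unfold enN
      rw [st]
      linarith
  exact
    { num := num2 N hr hqν (by linarith) (by linarith) (fun l l0 l1 j' hj' => by
        have k1 := hF'.far hw (by linarith) (by linarith) (hr.trans l0)
          (show l < v + 2 by omega) hj'
        have k2 := hF'.lv0 l (hr.trans l0) (by omega)
        linarith) (by
        unfold nD
        push_cast
        linarith)
      tm := h.tm
      wj := hwj
      j1 := by linarith
      wx := hwx
      x1 := by linarith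
      mj := Mj.2 (by
        have k1 := N.jn (v + 2) (by omega) le_rfl
        rw [eκ]
        linarith) _ hE
      mx := Mx.1 }

end Pool.AVG50
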