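import Pool.Agent.H50.AVN.Afp
import Pool.Agent.H57.SWB.Vfs

/-!
# The pair of the places 1, 2 of the swapped list is full at almost every window

`aeSw_vfp`: `aePG_vfp` for the swapped list.
-/

set_option autoImplicit false

namespace Pool.SWP

open Finset Real MvPolynomial MeasureTheory Filter Topology
open Pool.Agent.H49.Ent Pool.Agent.H32.Dense Pool.STK Pool.KA Pool.KSAT Pool.K2S Pool.PB Pool.S6C
open Pool.GEN Pool.CHT Pool.CHX Pool.ISO Pool.RCD Pool.LA91 Pool.AVG96 Pool.AVG50 Pool.CDX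
open Pool.PKG Pool.OWN68 Pool.OWN83 Pool.D2F2 Pool.AVG57 Pool.FUL95 Pool.FUL71
open Pool.TOP (TopS)

/-- **The pair of the places `1`, `2` of the swapped list is full**, as a property of the windows. -/
theorem aeSw_vfp {n : ℕ} (hn4 : 4 ≤ n) {Φ : (ℕ → ℝ) → Prop} {C₁ : (ℕ → ℝ) → ℝ}
    (hC : ∀ Sl : ℕ → ℝ, Φ Sl → Sl 1 - 1 ≤ C₁ Sl)
    (hful : AeSw n 1 (FulQ Φ : PropG n Unit)) :
    AeSw n 1 (VfPQ 1 (fun Sl => Φ Sl ∧ Sl 1 ≤ Sl 2) C₁ : PropG n ℕ) := by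
  intro hn S P r P' Λ PB PQ H hTop hF o G hG hGs hdg hsw
  obtain ⟨S₁, a1, a2, a3⟩ := aeSw_af (by omega) hn S P r P' Λ PB PQ H hTop hF o G hG hGs hdg hsw
  have H₁ := H.sub a1 a2
  have hsw₁ : ∀ w ∈ G, SwA S₁ (cc hn o.1.1) (LvL hn P P' o) 1 w := fun w hw => (hsw w hw).sub a2
  obtain ⟨S₂, b1, b2, b3⟩ := asmC_sw H₁.toPkT hTop hF hG hGs le_rfl (by omega) hsw₁ (v := 2)
    (by norm_num) (by omega)
  have H₂ := H₁.sub b1 b2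
  obtain ⟨S₃, c1, c2, c3⟩ := hful hn S₂ P r P' Λ PB PQ H₂ hTop hF o G hG hGs hdg
    fun w hw => (hsw₁ w hw).sub b2
  refine ⟨S₃, c1, fun τ J F A h => a2 τ J F A (b2 τ J F A (c2 τ J F A h)), ?_⟩
  obtain ⟨c, hc⟩ : ∃ c : ℕ → Fin n, c = fun l => cc hn o.1.1 (sw 1 l) := ⟨_, rfl⟩
  obtain ⟨sn, hsn⟩ : ∃ sn : ℝ → ℕ → ℝ, sn = fun w l => LvL hn P P' o (sw 1 l) w w := ⟨_, rfl⟩
  rw [← hc, ← hsn] at b3
  have hall : ∀ᵐ g : ℝ, ∀ x : {x : ℚ × ℚ × ℚ // 0 ≤ x.1 ∧ 0 < x.2.2 ∧ x.2.1 + x.2.2 ≤ 1},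
      (x.1.1 : ℝ) < g → g < x.1.2.1 → ∀ Sl : ℕ → ℝ,
      SlpG sn 1 3 G g Sl → Sl 1 ≤ Sl 2 →
      (Sl 1 < 2 ∨ AfG S₃ c sn G g 1) → AfG S₃ c sn G g 2 → FulG S₃ c sn G g →
      ∀ (K : ℕ) (C : ℝ), Sl 1 - 1 ≤ C →
      VfPG S₃ c 1 1 K C x.1.1 x.1.2.1 x.1.2.2 sn G g Sl := by
    rw [ae_all_iff]
    rintro ⟨⟨A, B, Λ'⟩, k1, k2, k3⟩
    have k1' : (0 : ℝ) ≤ (A : ℝ) := by exact_mod_cast k1
    have k2' : (0 : ℝ) < (Λ' : ℝ) := by exact_mod_cast k2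
    have k3' : (B : ℝ) + Λ' ≤ 1 := by exact_mod_cast k3
    by_cases hAB : (A : ℝ) < B
    · exact vfPG_t3 ((b3 A B Λ' k1' k2' k3' (by linarith) (by linarith)).sub c1 c2)
    · exact Eventually.of_forall fun g h1 h2 => absurd (h1.trans h2) hAB
  filter_upwards [hall, gap_ae hG, c3, a3] with g h1 h2 h3 h0 hg κ hκ p
  rw [← hc] at h3 h0 ⊢
  refine ⟨0, fun Sl hd hΦ hS A B Λ' hA hAg hgB hΛ hB => ?_⟩
  obtain ⟨_, h4⟩ := h3 hg κ hκ ()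
  obtain ⟨_, h5⟩ := h0 hg κ hκ ()
  have e1 : (fun w l => (fun l => LvL hn P P' o (sw 1 l)) l w w) = sn := by rw [hsn]
  have h7 := h4 Sl hd hΦ.1 hS
  have h6 := h5 (by
      rw [(hd 1 le_rfl (by norm_num)).deriv]
      exact hS 1 le_rfl (by norm_num)) (by
      rw [(hd 2 (by norm_num) (by norm_num)).deriv]
      exact hS 2 (by norm_num) (by norm_num))
  rw [e1] at h6 h7 ⊢
  have hs : ∀ (τ : ℝ) (J : ℕ) (F : Fam n J) (A : F.Ω → Prop), S₃.St τ J F A →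
      S₁.St τ J F A := fun τ J F A h => b2 τ J F A (c2 τ J F A h)
  have hslp : SlpG sn 1 3 G g Sl :=
    slpG_of (fun l l0 l1 => by linarith [hS l l0 l1]) (fun l l0 l1 => hS l l0 (by omega))
      (fun l l0 l1 => by
        rw [hsn]
        exact (hd l l0 l1).hasDerivWithinAt) (h2 hg)
  exact h1 ⟨(A, B, Λ'), hA, hΛ, hB⟩ hAg hgB Sl hslp hΦ.2 (Or.inr (h6.1.sub hs)) (h6.2.sub hs)
    h7 p (C₁ Sl) (hC Sl hΦ.1)

end Pool.SWP
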