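import Pool.Agent.H50.AVN.Vfp
import Pool.Agent.H71.FUL.Fub
import Pool.Agent.H95.VF.Lit
import Pool.Agent.H91.VF.Mv1

/-!
# The pair of places is full: from the own paths

`t3_ent`: the entropies. `vfp_t3`: `VfP` at `w` from the fullness of two heights at an earlier window
`b` given their own paths, from the two mutual informations (the record of `o` does not see the digits
of the velocity, the record of `x` does not see the far digits), and from few bits.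
-/

set_option autoImplicit false

namespace Pool.AVG50

open Finset Real MvPolynomial
open Pool.Agent.H49.Ent Pool.Agent.H32.Dense Pool.STK Pool.KA Pool.KSAT Pool.K2S Pool.PB Pool.GEN
open Pool.S6C Pool.RCD Pool.LA91 Pool.AVG96 Pool.AVG57
open Pool.AVG71 (MI_eq MI_eq')
open Pool.KVA (MI)
open Pool.FUL71 (mi_few mx_any)

section ent

variable {Ω 𝓙 𝓑 𝓓 𝓔 𝓝 𝓕 𝓩₁ 𝓩₂ 𝓩₃ 𝓩₄ 𝓤 𝓐 𝓥 𝓖 𝓣 𝓨 : Type} [Fintype Ω] {p : Ω → ℝ}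

/-- The entropies of the pair: the velocity. -/
theorem t3_ea (h0 : ∀ ω, 0 ≤ p ω) (B : Ω → 𝓑) (J : Ω → 𝓙) (d1 : Ω → 𝓓) (dq : Ω → 𝓔)
    (nr : Ω → 𝓝) (zb : Ω → 𝓩₁) (zo : Ω → 𝓩₂) (y : Ω → 𝓨) {θ ε₁ δ₃ δ₄ : ℝ}
    (k1 : θ ≤ CH p B (fun ω => (zb ω, (J ω, y ω))))
    (k2 : MI p zo dq (fun ω => (d1 ω, (zb ω, y ω))) ≤ ε₁)
    (k3 : CH p (fun ω => (J ω, B ω)) (fun ω => (d1 ω, (zo ω, y ω))) ≤ δ₃)
    (k4 : CH p d1 (fun ω => (J ω, (zb ω, y ω))) ≤ δ₄)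
    (n1 : ∀ ω ω', J ω = J ω' → dq ω = dq ω' → nr ω = nr ω') :
    θ - ε₁ - 2 * δ₃ - δ₄ ≤ CH p B (fun ω => (J ω, (nr ω, (zb ω, y ω)))) := by
  have j3 : CH p J (fun ω => (d1 ω, (zo ω, y ω))) ≤ δ₃ :=
    (CH_mono_left h0 (X' := fun ω => (J ω, B ω)) fun ω ω' _ _ hh =>
      (Prod.ext_iff.mp (Prod.ext_iff.mp hh).1).1).trans k3
  have b3 : CH p B (fun ω => (d1 ω, (zo ω, y ω))) ≤ δ₃ :=
    (CH_mono_left h0 (X' := fun ω => (J ω, B ω)) fun ω ω' _ _ hh =>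
      (Prod.ext_iff.mp (Prod.ext_iff.mp hh).1).2).trans k3
  have k2' : MI p dq zo (fun ω => (d1 ω, (zb ω, y ω))) ≤ ε₁ := by
    rw [MI_eq' h0] at k2
    rw [MI_eq h0]
    exact k2
  have s1 := mi_few h0 dq zo J B (fun ω => (d1 ω, (zb ω, y ω))) k2'
    ((CH_mono_cond h0 fun ω ω' _ _ hh => by
      simp only [Prod.mk.injEq] at hh ⊢
      exact ⟨hh.2.1, hh.1, hh.2.2.2⟩).trans j3)
    ((CH_mono_cond h0 fun ω ω' _ _ hh => by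
      simp only [Prod.mk.injEq] at hh ⊢
      exact ⟨hh.2.1, hh.1, hh.2.2.2⟩).trans b3)
  have s2 := CH_le_add h0 B d1 (fun ω => (zb ω, (J ω, y ω)))
  have s3 : CH p d1 (fun ω => (zb ω, (J ω, y ω))) ≤ CH p d1 (fun ω => (J ω, (zb ω, y ω))) :=
    CH_mono_cond h0 fun ω ω' _ _ hh => by
      simp only [Prod.mk.injEq] at hh ⊢
      exact ⟨hh.2.1, hh.1, hh.2.2⟩
  have s4 : CH p B (fun ω => (d1 ω, (zb ω, (J ω, y ω)))) ≤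
      CH p B (fun ω => (J ω, (d1 ω, (zb ω, y ω)))) :=
    CH_mono_cond h0 fun ω ω' _ _ hh => by
      simp only [Prod.mk.injEq] at hh ⊢
      exact ⟨hh.2.2.1, hh.1, hh.2.1, hh.2.2.2⟩
  have s5 : CH p B (fun ω => (dq ω, (J ω, (d1 ω, (zb ω, y ω))))) ≤
      CH p B (fun ω => (J ω, (nr ω, (zb ω, y ω)))) :=
    CH_mono_cond h0 fun ω ω' _ _ hh => by
      simp only [Prod.mk.injEq] at hh ⊢
      exact ⟨hh.2.1, n1 ω ω' hh.2.1 hh.1, hh.2.2.2.1, hh.2.2.2.2⟩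
  linarith

/-- The entropies of the pair: the box. -/
theorem t3_ec (h0 : ∀ ω, 0 ≤ p ω) (B : Ω → 𝓑) (J : Ω → 𝓙) (dq : Ω → 𝓔)
    (nr : Ω → 𝓝) (zb : Ω → 𝓩₁) (zw : Ω → 𝓩₃) (zx : Ω → 𝓩₄)
    (u : Ω → 𝓤) (a : Ω → 𝓐) (d : Ω → 𝓥) (g : Ω → 𝓖) (T : Ω → 𝓣) (y : Ω → 𝓨) {ε : ℝ}
    (n2 : ∀ ω ω', nr ω = nr ω' → dq ω = dq ω')
    (k7 : CH p zw zx ≤ ε)
    (k8 : CH p u (fun ω => ((J ω, dq ω), (zw ω, y ω))) ≤ ε)
    (k9 : CH p a (fun ω => ((J ω, dq ω), (zw ω, y ω))) ≤ ε)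
    (k10 : CH p d (fun ω => ((J ω, dq ω), (zw ω, y ω))) ≤ ε)
    (k11 : CH p g (fun ω => ((J ω, dq ω), (zw ω, y ω))) ≤ ε)
    (k12 : CH p B (fun ω => ((T ω, J ω), (zw ω, y ω))) ≤ ε) :
    CH p B (fun ω => (zx ω, (J ω, (nr ω, (zb ω, y ω))))) - 6 * ε ≤
      CH p T (fun ω => (a ω, (d ω, (g ω, (zx ω, (zw ω, (u ω, y ω))))))) := by
  obtain ⟨W, hW⟩ : ∃ W : Ω → 𝓩₄ × 𝓙 × 𝓝 × 𝓩₁ × 𝓨, W = fun ω => (zx ω, (J ω, (nr ω, (zb ω, y ω)))) :=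
    ⟨_, rfl⟩
  rw [← hW]
  have hy : ∀ ω ω', (zw ω, W ω) = (zw ω', W ω') →
      zw ω = zw ω' ∧ zx ω = zx ω' ∧ J ω = J ω' ∧ dq ω = dq ω' ∧ y ω = y ω' := by
    intro ω ω' hh
    rw [hW] at hh
    simp only [Prod.mk.injEq] at hh
    exact ⟨hh.1, hh.2.1, hh.2.2.1, n2 ω ω' hh.2.2.2.1, hh.2.2.2.2.2⟩
  obtain ⟨C, hC⟩ : ∃ C : Ω → (𝓙 × 𝓔) × 𝓩₃ × 𝓨, C = fun ω => ((J ω, dq ω), (zw ω, y ω)) :=
    ⟨_, rfl⟩
  rw [← hC] at k8 k9 k10 k11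
  have hc : ∀ ω ω', (zw ω, W ω) = (zw ω', W ω') → C ω = C ω' := by
    intro ω ω' hh
    obtain ⟨q1, q2, q3, q4, q5⟩ := hy ω ω' hh
    rw [hC]
    show ((J ω, dq ω), (zw ω, y ω)) = ((J ω', dq ω'), (zw ω', y ω'))
    rw [q1, q3, q4, q5]
  have t1 := CH_le_add h0 B zw W
  have t2 : CH p zw W ≤ CH p zw zx := CH_mono_cond h0 fun ω ω' _ _ hh => by
    rw [hW] at hh
    exact (Prod.ext_iff.mp hh).1
  have t3 := CH_le_add h0 B u (fun ω => (zw ω, W ω))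
  have t4 : CH p u (fun ω => (zw ω, W ω)) ≤ CH p u C :=
    CH_mono_cond h0 fun ω ω' _ _ hh => hc ω ω' hh
  have t5 := CH_le_add h0 B a (fun ω => (u ω, (zw ω, W ω)))
  have t6 : CH p a (fun ω => (u ω, (zw ω, W ω))) ≤ CH p a C :=
    CH_mono_cond h0 fun ω ω' _ _ hh => hc ω ω' (Prod.ext_iff.mp hh).2
  have t7 := CH_le_add h0 B d (fun ω => (a ω, (u ω, (zw ω, W ω))))
  have t8 : CH p d (fun ω => (a ω, (u ω, (zw ω, W ω)))) ≤ CH p d C :=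
    CH_mono_cond h0 fun ω ω' _ _ hh => hc ω ω' (Prod.ext_iff.mp (Prod.ext_iff.mp hh).2).2
  have t9 := CH_le_add h0 B g (fun ω => (d ω, (a ω, (u ω, (zw ω, W ω)))))
  have t10 : CH p g (fun ω => (d ω, (a ω, (u ω, (zw ω, W ω))))) ≤ CH p g C :=
    CH_mono_cond h0 fun ω ω' _ _ hh =>
      hc ω ω' (Prod.ext_iff.mp (Prod.ext_iff.mp (Prod.ext_iff.mp hh).2).2).2
  have t11 := CH_le_add h0 B T (fun ω => (g ω, (d ω, (a ω, (u ω, (zw ω, W ω))))))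
  have t12 : CH p B (fun ω => (T ω, (g ω, (d ω, (a ω, (u ω, (zw ω, W ω))))))) ≤
      CH p B (fun ω => ((T ω, J ω), (zw ω, y ω))) :=
    CH_mono_cond h0 fun ω ω' _ _ hh => by
      simp only [Prod.mk.injEq] at hh
      obtain ⟨q1, q2, q3, q4, q5⟩ := hy ω ω' (Prod.ext hh.2.2.2.2.2.1 hh.2.2.2.2.2.2)
      simp only [Prod.mk.injEq]
      exact ⟨⟨hh.1, q3⟩, q1, q5⟩
  have t13 : CH p T (fun ω => (g ω, (d ω, (a ω, (u ω, (zw ω, W ω)))))) ≤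
      CH p T (fun ω => (a ω, (d ω, (g ω, (zx ω, (zw ω, (u ω, y ω))))))) :=
    CH_mono_cond h0 fun ω ω' _ _ hh => by
      simp only [Prod.mk.injEq] at hh
      obtain ⟨q1, q2, q3, q4, q5⟩ := hy ω ω' (Prod.ext hh.2.2.2.2.1 hh.2.2.2.2.2)
      simp only [Prod.mk.injEq]
      exact ⟨hh.2.2.1, hh.2.1, hh.1, q2, q1, hh.2.2.2.1, q5⟩
  linarith

/-- **The entropies** of the pair. -/
theorem t3_ent (h0 : ∀ ω, 0 ≤ p ω) (B : Ω → 𝓑) (J : Ω → 𝓙) (d1 : Ω → 𝓓) (dq : Ω → 𝓔)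
    (nr : Ω → 𝓝) (fa : Ω → 𝓕) (zb : Ω → 𝓩₁) (zo : Ω → 𝓩₂) (zw : Ω → 𝓩₃) (zx : Ω → 𝓩₄)
    (u : Ω → 𝓤) (a : Ω → 𝓐) (d : Ω → 𝓥) (g : Ω → 𝓖) (T : Ω → 𝓣) (y : Ω → 𝓨)
    {θ ε₁ ε₂ δ₃ δ₄ δ₆ ε : ℝ}
    (k1 : θ ≤ CH p B (fun ω => (zb ω, (J ω, y ω))))
    (k2 : MI p zo dq (fun ω => (d1 ω, (zb ω, y ω))) ≤ ε₁)
    (k3 : CH p (fun ω => (J ω, B ω)) (fun ω => (d1 ω, (zo ω, y ω))) ≤ δ₃)
    (k4 : CH p d1 (fun ω => (J ω, (zb ω, y ω))) ≤ δ₄)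
    (k5 : MI p zx fa (fun ω => (nr ω, (zb ω, y ω))) ≤ ε₂)
    (k6 : CH p (fun ω => (J ω, B ω)) (fun ω => ((fa ω, nr ω), (zb ω, y ω))) ≤ δ₆)
    (n1 : ∀ ω ω', J ω = J ω' → dq ω = dq ω' → nr ω = nr ω')
    (n2 : ∀ ω ω', nr ω = nr ω' → dq ω = dq ω')
    (k7 : CH p zw zx ≤ ε)
    (k8 : CH p u (fun ω => ((J ω, dq ω), (zw ω, y ω))) ≤ ε)
    (k9 : CH p a (fun ω => ((J ω, dq ω), (zw ω, y ω))) ≤ ε)
    (k10 : CH p d (fun ω => ((J ω, dq ω), (zw ω, y ω))) ≤ ε)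
    (k11 : CH p g (fun ω => ((J ω, dq ω), (zw ω, y ω))) ≤ ε)
    (k12 : CH p B (fun ω => ((T ω, J ω), (zw ω, y ω))) ≤ ε) :
    θ - ε₁ - ε₂ - 2 * δ₃ - δ₄ - 2 * δ₆ - 6 * ε ≤
      CH p T (fun ω => (a ω, (d ω, (g ω, (zx ω, (zw ω, (u ω, y ω))))))) := by
  have j6 : CH p J (fun ω => ((fa ω, nr ω), (zb ω, y ω))) ≤ δ₆ :=
    (CH_mono_left h0 (X' := fun ω => (J ω, B ω)) fun ω ω' _ _ hh =>
      (Prod.ext_iff.mp (Prod.ext_iff.mp hh).1).1).trans k6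
  have b6 : CH p B (fun ω => ((fa ω, nr ω), (zb ω, y ω))) ≤ δ₆ :=
    (CH_mono_left h0 (X' := fun ω => (J ω, B ω)) fun ω ω' _ _ hh =>
      (Prod.ext_iff.mp (Prod.ext_iff.mp hh).1).2).trans k6
  have a1 := t3_ea h0 B J d1 dq nr zb zo y k1 k2 k3 k4 n1
  have a2 := mi_few h0 zx fa J B (fun ω => (nr ω, (zb ω, y ω))) k5
    ((CH_mono_cond h0 fun ω ω' _ _ hh => by
      simp only [Prod.mk.injEq] at hh ⊢
      exact ⟨⟨hh.1, hh.2.1⟩, hh.2.2.1, hh.2.2.2⟩).trans j6)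
    ((CH_mono_cond h0 fun ω ω' _ _ hh => by
      simp only [Prod.mk.injEq] at hh ⊢
      exact ⟨⟨hh.1, hh.2.1⟩, hh.2.2.1, hh.2.2.2⟩).trans b6)
  have a3 := t3_ec h0 B J dq nr zb zw zx u a d g T y n2 k7 k8 k9 k10 k11 k12
  linarith

end ent

/-- The near digits: orders `0`, `1` of the places `1`, `2`, the velocity of `1` replaced. -/
def nJ (u : ℕ → ℕ → ℤ) (d : ℤ) (i j' : ℕ) : ℤ :=
  if i = 1 ∧ j' = 1 then d else if 1 ≤ i ∧ i < 3 ∧ j' ≤ 1 then u i j' else 0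

variable {m : ℕ} {γ : ∀ J : ℕ, Fam m J → Type} {S : PCl m}
  {y : ∀ (J : ℕ) (F : Fam m J), F.Ω → γ J F}

/-- The smallest of finitely many positive numbers. -/
theorem min_list (l : List ℝ) (h : ∀ x ∈ l, 0 < x) : ∃ e : ℝ, 0 < e ∧ ∀ x ∈ l, e ≤ x := by
  induction l with
  | nil => exact ⟨1, one_pos, fun x hx => absurd hx List.not_mem_nil⟩
  | cons a l ih =>
    obtain ⟨e, he, h1⟩ := ih fun x hx => h x (List.mem_cons_of_mem _ hx)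
    refine ⟨min a e, lt_min (h a List.mem_cons_self) he, fun x hx => ?_⟩
    rcases List.mem_cons.1 hx with rfl | h2
    · exact min_le_left _ _
    · exact (min_le_right _ _).trans (h1 x h2)

/-- **The pair is full**, from the own paths at an earlier window `b`. -/
theorem vfp_t3
    (hpos : ∀ (τ : ℝ) (J : ℕ) (F : Fam m J) (A : F.Ω → Prop), S.St τ J F A → 0 < Pe F.p A)
    {c : ℕ → Fin m} {K : ℕ} {b w x o : ℝ} (hwx : w ≤ x) (hx1 : x ≤ 1)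
    {QJ Qn Qf : Qt m (ℕ → ℕ → ℤ)} {Q1 Q2 Qd Qe : Qt m ℤ} {p n n' : ℕ → ℝ}
    {Na Nb Nd Mu Mb θ₁ ε₁ ε₂ δ₃ δ₄ δ₆ θ : ℝ}
    (hL : LowN S (fun J F => ptr F J) (vg b) y QJ (Q1.prod Q2) θ₁)
    (hM1 : MIw S (fun J F => ptr F J) y b o Qe Qd ε₁)
    (hM2 : MIw S (fun J F => ptr F J) y b x Qf Qn ε₂)
    (f3 : FewD S (fun J F => ptr F J) (vg o) y Qd (QJ.prod (Q1.prod Q2)) δ₃)
    (f4 : FewD S (fun J F => ptr F J) (vg b) y QJ Qd δ₄)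
    (f6 : FewD S (fun J F => ptr F J) (vg b) y (Qf.prod Qn) (QJ.prod (Q1.prod Q2)) δ₆)
    (hn : ∀ (K : ℕ) (e : ℝ) (J : ℕ) (F : Fam m J) (A : F.Ω → Prop) (u : F.Ω → ℕ → ℕ → ℤ)
      (d : F.Ω → ℤ), QJ.P K e J F A u → Qe.P K e J F A d →
      Qn.P K e J F A (fun ω => nJ (u ω) (d ω)))
    (g0 : Few S (fun J F => ptr F J) (vg w) y (QJ.prod Qe) (jetQ m c 1 1 w p (nd n n' w)))
    (g1 : Few S (fun J F => ptr F J) (vg w) y (QJ.prod Qe)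
      (qJet m ((range 1).image c) (c 1) 0 w (p 1) Na))
    (g2 : Few S (fun J F => ptr F J) (vg w) y (QJ.prod Qe)
      (qJet m ((range 1).image c) (c 1) 1 w (p 1) Nd))
    (g3 : Few S (fun J F => ptr F J) (vg w) y (QJ.prod Qe)
      (qJets m c 2 3 (K + 2) (fun _ _ => w) (fun l _ => p l) (fun _ j' => Mu - (j' : ℝ) * w)))
    (g4 : Few S (fun J F => ptr F J) (vg w) y
      (((qJet m ((range 1).image c) (c 1) 0 w (p 1) Nb).prod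
        (qJet m ((range 2).image c) (c 2) 0 w (p 2) Mb)).prod QJ) (Q1.prod Q2))
    (xJ : Exs S QJ) (x1 : Exs S Q1) (x2 : Exs S Q2) (xd : Exs S Qd) (xe : Exs S Qe)
    (xf : Exs S Qf)
    (hθ : ((Nb - Na) + (Mb - Mu)) * Real.log 2 - θ <
      θ₁ - ε₁ - ε₂ - 2 * δ₃ - δ₄ - 2 * δ₆) :
    VfP S y c 1 1 K w x p n n' Na Nb Nd Mu Mb θ := by
  obtain ⟨h, hh⟩ : ∃ h : ℝ, h = (θ₁ - ε₁ - ε₂ - 2 * δ₃ - δ₄ - 2 * δ₆ -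
      (((Nb - Na) + (Mb - Mu)) * Real.log 2 - θ)) / 20 := ⟨_, rfl⟩
  have hh0 : 0 < h := by rw [hh]; linarith
  obtain ⟨k1, hk1, e1, he1, H1⟩ := hL h hh0
  obtain ⟨k2, hk2, e2, he2, H2⟩ := hM1 h hh0
  obtain ⟨e3, he3, H3⟩ := f3.mx hpos h hh0
  obtain ⟨e4, he4, H4⟩ := f4.mx hpos h hh0
  obtain ⟨k5, hk5, e5, he5, H5⟩ := hM2 h hh0
  obtain ⟨e6, he6, H6⟩ := f6.mx hpos h hh0
  obtain ⟨e7, he7, H7⟩ := g0.mx hpos h hh0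
  obtain ⟨e8, he8, H8⟩ := g1.mx hpos h hh0
  obtain ⟨e9, he9, H9⟩ := g2.mx hpos h hh0
  obtain ⟨e10, he10, H10⟩ := g3.mx hpos h hh0
  obtain ⟨e11, he11, H11⟩ := g4.mx hpos h hh0
  obtain ⟨e₀, he₀, hl⟩ := min_list [e1, e2, e3, e4, e5, e6, e7, e8, e9, e10, e11] (by
    simp only [List.mem_cons, List.not_mem_nil, or_false]
    rintro z (rfl | rfl | rfl | rfl | rfl | rfl | rfl | rfl | rfl | rfl | rfl) <;> assumption)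
  simp only [List.mem_cons, List.not_mem_nil, or_false, forall_eq_or_imp, forall_eq] at hl
  obtain ⟨l1, l2, l3, l4, l5, l6, l7, l8, l9, l10, l11⟩ := hl
  obtain ⟨Ka, Ma, hxJ⟩ := xJ e₀ he₀
  obtain ⟨Kb, Mb', hx1'⟩ := x1 e₀ he₀
  obtain ⟨Kc, Mc, hx2'⟩ := x2 e₀ he₀
  obtain ⟨Kd, Md, hxd⟩ := xd e₀ he₀
  obtain ⟨Ke, Me, hxe⟩ := xe e₀ he₀
  obtain ⟨Kf, Mf, hxf⟩ := xf e₀ he₀
  refine ⟨min k5 (h / 2), by positivity, e₀, he₀, fun K₀ => ?_⟩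
  obtain ⟨K', q0, q1, q2, q3, q4, q5, q6⟩ : ∃ K' : ℕ, K₀ ≤ K' ∧ Ka ≤ K' ∧ Kb ≤ K' ∧ Kc ≤ K' ∧
      Kd ≤ K' ∧ Ke ≤ K' ∧ Kf ≤ K' :=
    ⟨K₀ + Ka + Kb + Kc + Kd + Ke + Kf, by omega, by omega, by omega, by omega, by omega, by omega,
      by omega⟩
  refine Bas.mono 0 ((((((H1 K').and (H2 K')).and ((H3 K').and (H4 K'))).and
    (((H5 K').and (H6 K')).and ((H7 K').and (H8 K')))).and
    (((H9 K').and (H10 K')).and ((H11 K').and (pos_bas hpos)))).and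
    (((hxJ.and hx1').and (hx2'.and hxd)).and (hxe.and hxf))) ?_
  rintro J - F A ⟨⟨⟨⟨⟨H1, H2⟩, H3, H4⟩, ⟨H5, H6⟩, H7, H8⟩, ⟨H9, H10⟩, H11, hA⟩,
    ⟨⟨⟨uJ, huJ, -⟩, u1, hu1, -⟩, ⟨u2, hu2, -⟩, ud, hud, -⟩, ⟨ue, hue, -⟩, uf, huf, -⟩
    V₁ V₂ z zx hz hzx u₀ a bb d g bu hu₀ ha hb hd hg hbu
  have hp := (isLaw_cond F.isLaw hA).nonneg
  have hJ0 : (0 : ℝ) ≤ J := Nat.cast_nonneg J
  obtain ⟨Vb, zb, hzb⟩ := mx_any (fun J F => ptr F J) (vg b) (le_refl (0 : ℝ)) hA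
  obtain ⟨Vo, zo, hzo⟩ := mx_any (fun J F => ptr F J) (vg o) (le_refl (0 : ℝ)) hA
  have Bz : ∀ {k : ℝ}, 0 ≤ k → Mx (fun J F => ptr F J) (vg b) k F A zb := fun hk => hzb.le' hk
  have Oz : ∀ {k : ℝ}, 0 ≤ k → Mx (fun J F => ptr F J) (vg o) k F A zo := fun hk => hzo.le' hk
  have Wz : Mx (fun J F => ptr F J) (vg w) (h / 2) F A z := hz.le' (min_le_right _ _)
  have hh2 : 0 ≤ h / 2 := by positivity
  have XJ : ∀ {e : ℝ}, e₀ ≤ e → QJ.P K' e J F A uJ := fun he => QJ.mono q1 he huJ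
  have X1 : ∀ {e : ℝ}, e₀ ≤ e → Q1.P K' e J F A u1 := fun he => Q1.mono q2 he hu1
  have X2 : ∀ {e : ℝ}, e₀ ≤ e → Q2.P K' e J F A u2 := fun he => Q2.mono q3 he hu2
  have Xd : ∀ {e : ℝ}, e₀ ≤ e → Qd.P K' e J F A ud := fun he => Qd.mono q4 he hud
  have Xe : ∀ {e : ℝ}, e₀ ≤ e → Qe.P K' e J F A ue := fun he => Qe.mono q5 he hue
  have Xf : ∀ {e : ℝ}, e₀ ≤ e → Qf.P K' e J F A uf := fun he => Qf.mono q6 he huf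
  have Xn : ∀ {e : ℝ}, e₀ ≤ e → Qn.P K' e J F A (fun ω => nJ (uJ ω) (ue ω)) := fun he =>
    hn K' _ J F A uJ ue (XJ he) (Xe he)
  have m1 := H1 Vb zb (Bz hk1.le) uJ (fun ω => (u1 ω, u2 ω)) (XJ l1) ⟨X1 l1, X2 l1⟩
  have m2 := H2 Vb Vo zb zo (Bz hk2.le) (Oz hk2.le) ue ud (Xe l2) (Xd l2)
  have m3 := H3 Vo zo (Oz hh2) ud (fun ω => (uJ ω, (u1 ω, u2 ω))) (Xd l3) ⟨XJ l3, X1 l3, X2 l3⟩
  have m4 := H4 Vb zb (Bz hh2) uJ ud (XJ l4) (Xd l4)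
  have m5 := H5 Vb V₂ zb zx (Bz hk5.le) (hzx.le' (min_le_left _ _)) uf
    (fun ω => nJ (uJ ω) (ue ω)) (Xf l5) (Xn l5)
  have m6 := H6 Vb zb (Bz hh2) (fun ω => (uf ω, nJ (uJ ω) (ue ω)))
    (fun ω => (uJ ω, (u1 ω, u2 ω))) ⟨Xf l6, Xn l6⟩ ⟨XJ l6, X1 l6, X2 l6⟩
  have m7 := H7 V₁ z Wz (fun ω => (uJ ω, ue ω)) u₀ ⟨XJ l7, Xe l7⟩
    ((jetQ m c 1 1 w p (nd n n' w)).mono q0 l7 hu₀)
  have m8 := H8 V₁ z Wz (fun ω => (uJ ω, ue ω)) a ⟨XJ l8, Xe l8⟩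
    ((qJet m ((range 1).image c) (c 1) 0 w (p 1) Na).mono q0 l8 ha)
  have m9 := H9 V₁ z Wz (fun ω => (uJ ω, ue ω)) d ⟨XJ l9, Xe l9⟩
    ((qJet m ((range 1).image c) (c 1) 1 w (p 1) Nd).mono q0 l9 hd)
  have m10 := H10 V₁ z Wz (fun ω => (uJ ω, ue ω)) g ⟨XJ l10, Xe l10⟩
    ((qJets m c 2 3 (K + 2) (fun _ _ => w) (fun l _ => p l)
      (fun _ j' => Mu - (j' : ℝ) * w)).mono q0 l10 hg)
  have m11 := H11 V₁ z Wz (fun ω => ((bb ω, bu ω), uJ ω)) (fun ω => (u1 ω, u2 ω))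
    ⟨⟨(qJet m ((range 1).image c) (c 1) 0 w (p 1) Nb).mono q0 l11 hb,
      (qJet m ((range 2).image c) (c 2) 0 w (p 2) Mb).mono q0 l11 hbu⟩, XJ l11⟩ ⟨X1 l11, X2 l11⟩
  have m12 : CH (Pool.Agent.H49.Ent.cond F.p A True) z zx ≤ h * J := by
    refine (hzx.2 _ z (hz.1.mono ⟨fun t => t, fun _ _ => rfl⟩ ?_)).trans
      (mul_le_mul_of_nonneg_right ((min_le_right _ _).trans (by linarith)) hJ0)
    obtain ⟨φ, hφ⟩ := vg_mono hwx hx1 J F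
    exact ⟨φ, fun ω _ => hφ ω⟩
  have key := t3_ent hp (fun ω => (u1 ω, u2 ω)) uJ ud ue (fun ω => nJ (uJ ω) (ue ω)) uf zb zo z zx
    u₀ a d g (fun ω => (bb ω, bu ω)) (y J F) m1 m2 m3 m4 m5 m6
    (fun ω ω' e1 e2 => by
      show nJ (uJ ω) (ue ω) = nJ (uJ ω') (ue ω')
      rw [e1, e2])
    (fun ω ω' e => by
      have e1 := congrFun (congrFun e 1) 1
      simp only [nJ, and_self, if_true] at e1
      exact e1) m12 m7 m8 m9 m10 m11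
  refine le_trans ?_ key
  have e1 : (θ₁ - h) * J - (ε₁ + h) * J - (ε₂ + h) * J - 2 * ((δ₃ + h) * J) - (δ₄ + h) * J -
      2 * ((δ₆ + h) * J) - 6 * (h * J) =
      (θ₁ - ε₁ - ε₂ - 2 * δ₃ - δ₄ - 2 * δ₆ - 14 * h) * J := by ring
  rw [e1]
  refine mul_le_mul_of_nonneg_right ?_ hJ0
  rw [hh]
  linarith

end Pool.AVG50
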