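import Pool.Agent.H50.AVN.T3a
import Pool.Agent.H71.CDX.Cus

/-!
# The pair of places is full: few bits

`gjetF`, `jetF`: one jet at a window of the chain, explicit accuracy. `t3_core`: the own paths and the
heights of the places `1`, `2` over the labels of `b` from the near digits of the orders `0`, `1`.
-/

set_option autoImplicit false

namespace Pool.AVG50

open Finset Real MvPolynomial
open Pool.Agent.H49.Ent Pool.Agent.H32.Dense Pool.STK Pool.KA Pool.KSAT Pool.K2S Pool.PB Pool.GEN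
open Pool.S6C Pool.RCD Pool.LA91 Pool.AVG96 Pool.AVG57 Pool.OWN68 Pool.CDX

variable {m : ℕ} {α γ : ∀ J : ℕ, Fam m J → Type}
  {f : ∀ (J : ℕ) (F : Fam m J), F.Ω → α J F} {y : ∀ (J : ℕ) (F : Fam m J), F.Ω → γ J F}
  {S : PCl m} {c : ℕ → Fin m} {r₀ r : ℕ} {s A B Λ : ℝ} {sn : ℝ → ℕ → ℝ} {G : Set ℝ}

/-- **Few bits for one jet**, the lower places to the orders `≤ j` only, explicit accuracy. -/
theorem gjetF (h : GCh S f y c r₀ r s A B Λ sn G) {i j : ℕ} (h0 : r₀ ≤ i) (hi : i ≤ r)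
    {w x₀ x x' : ℝ} (hw : w ∈ G) (hA : A ≤ w) (hB : w < B) (hx₀ : x₀ ≤ w)
    (hx : x ≤ w) (hx' : x' ≤ w) {p₀ : ℕ → ℝ} {p p' : ℝ}
    (hp : ∀ l, r₀ ≤ l → l < i → p₀ l ≤ sn w l) {N : ℕ → ℕ → ℝ} {N₁ N₂ : ℝ} {lv : ℕ → ℝ}
    {σ₀ : ℝ} (hσ : 0 < σ₀) (hlv : ∀ l, r₀ ≤ l → l < i → 0 < lv l)
    (h1 : ∀ l, r₀ ≤ l → l < i → ∀ j' ≤ j, sn w l + lv l + σ₀ ≤ N l j' + (j' : ℕ) * w)
    (h2 : ∀ l, r₀ ≤ l → l < i → sn w l + lv l + σ₀ ≤ p₀ l + Λ)
    (h2' : ∀ l, r₀ ≤ l → l < i → ∀ l', r₀ ≤ l' → l' < l → sn w l + lv l + σ₀ ≤ p₀ l + lv l')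
    (hN : N₂ ≤ N₁) (h3 : N₂ + (j : ℝ) * w + σ₀ ≤ min p p' + Λ)
    (h3' : ∀ l, r₀ ≤ l → l < i → N₂ + (j : ℝ) * w + σ₀ ≤ min p p' + lv l) {e : ℝ} (he : 0 < e) :
    F1 S f (vg w) y ((qJets m c r₀ i j (fun _ _ => x₀) (fun l _ => p₀ l) N).prod
      (qJet m ((range i).image c) (c i) j x p N₁))
      (qJet m ((range i).image c) (c i) j x' p' N₂) (σ₀ / 8) e := by
  obtain ⟨C₀, htm⟩ := h.tm
  obtain ⟨q₀, lam', hp1, hlam, hp0, hkn⟩ := h.kn
  have hΛ0 := h.Λ0
  obtain ⟨u₁, rd, hrd, hch⟩ := h.ch w hw hA hB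
  have hch := hch.take h0 hi
  have hmn : Λ ≤ min lam' (q₀ - w) := le_min hlam (by linarith)
  refine jetN_F1 htm hch (lv := lv) (p₀ := q₀) (lam := lam') (σ₀ := σ₀)
    (fun _ _ _ _ _ => hx₀) hx hx'
    (by linarith) hp1 (by linarith) hσ hlv (fun l a b j' c' => h1 l a b j' c')
    (fun l a b j' _ => ?_) (fun l a b j' _ l' a' b' => ?_) hN (by linarith)
    (fun l a b => h3' l a b) h.pt hkn he
  · rw [min_eq_left (hp l a b)]
    have := h2 l a b
    linarith
  · rw [min_eq_left (hp l a b)]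
    exact h2' l a b l' a' b'

/-- **Few bits for one jet of the place `r₀`**, explicit accuracy. -/
theorem jetF (h : GCh S f y c r₀ r s A B Λ sn G) (hr : r₀ ≤ r) {j : ℕ}
    {w x x' : ℝ} (hw : w ∈ G) (hA : A ≤ w) (hB : w < B) (hx : x ≤ w) (hx' : x' ≤ w)
    {p p' N₁ N₂ σ₀ : ℝ} (hσ : 0 < σ₀) (hN : N₂ ≤ N₁)
    (h3 : N₂ + (j : ℝ) * w + σ₀ ≤ min p p' + Λ) {e : ℝ} (he : 0 < e) :
    F1 S f (vg w) y (qJet m ((range r₀).image c) (c r₀) j x p N₁)
      (qJet m ((range r₀).image c) (c r₀) j x' p' N₂) (σ₀ / 8) e := by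
  obtain ⟨C₀, htm⟩ := h.tm
  refine F1.pull htm (Q₁ := (qJets m c r₀ r₀ j (fun _ _ => w) (fun l _ => sn w l)
    (fun _ _ => 0)).prod (qJet m ((range r₀).image c) (c r₀) j x p N₁))
    (fun d => ((fun _ _ => 0), d)) (fun K e J F A u hu => ?_)
    (gjetF h le_rfl hr hw hA hB le_rfl hx hx' (fun l a b => absurd b (by omega)) hσ
      (lv := fun _ => 1) (fun _ _ _ => one_pos) (fun l a b => absurd b (by omega))
      (fun l a b => absurd b (by omega)) (fun l a b => absurd b (by omega)) hN h3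
      (fun l a b => absurd b (by omega)) he)
  exact ⟨⟨fun i a b => absurd b (by omega), fun _ _ _ _ _ => rfl⟩, hu⟩

/-- From explicit accuracy. -/
theorem fewD_F1 {U U' : Type} {β : ∀ J : ℕ, Fam m J → Type}
    {g : ∀ (J : ℕ) (F : Fam m J), F.Ω → β J F} {Q : Qt m U} {Q' : Qt m U'} {e δ : ℝ} (he : 0 < e)
    (H : F1 S f g y Q Q' e δ) : FewD S f g y Q Q' δ := by
  intro x hx
  refine ⟨e, he, fun K => Bas.mono 0 (H K) ?_⟩
  rintro J - F A h1 u u' hu hu'
  obtain ⟨V, z, hz, h2⟩ := h1 u u' hu hu'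
  exact ⟨V, z, hz, h2.trans (mul_le_mul_of_nonneg_right (by linarith) (Nat.cast_nonneg J))⟩

/-- The number of entries. -/
def TK (K : ℕ) : ℕ := 3 * (K + 3) * (2 * (K + 3) + 1) + 2

/-- **The own paths of the places `1`, `2`** over the labels of `b`, from near digits. -/
theorem t3_core (h : GCh S (fun J F => ptr F J) y c 1 3 s A B Λ sn G) {b : ℝ} (hb : b ∈ G)
    (hA : A ≤ b) (hB : b < B) {K : ℕ} {P N₁ N₂ z e₁ η : ℝ} (hz : 0 < z) (hP : 0 ≤ P)
    (hN₁ : 0 ≤ N₁) (hN₂ : 0 ≤ N₂) (he₁ : 0 < e₁) (hη : 0 < η) {D₁ : ℕ → ℝ} {Nf : ℕ → ℕ → ℝ}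
    (hD : ∀ j : ℕ, 2 ≤ j → j ≤ K + 2 → sn b 1 + (P + 36 * z) ≤ D₁ j + (j : ℝ) * b)
    (src : ∀ j : ℕ, 2 ≤ j → j ≤ K + 2 → F1 S (fun J F => ptr F J) (vg b) y
      (jetQ m c 1 1 b (sn b) Nf) (qJet m ((range 1).image c) (c 1) j b (sn b 1) (D₁ j)) e₁ η)
    {b' Pb : ℝ} (hb' : b' ≤ b) (hPb : sn b 2 - z ≤ Pb)
    (haf : AffL S ((range 2).image c) (c 2) b' Pb) (hΛ : P + N₁ + N₂ + 100 * z ≤ Λ)
    {Dc : ℕ → ℕ → ℝ} (c10 : sn b 1 + P + 40 * z ≤ Dc 1 0)
    (c11 : sn b 1 + P + 40 * z ≤ Dc 1 1 + b) (c1 : sn b 1 + N₁ ≤ Dc 1 0)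
    (c2 : sn b 1 + N₂ + 2 * z ≤ Dc 1 0) (c20 : sn b 2 + P ≤ Dc 2 0)
    (c22 : sn b 2 + N₂ ≤ Dc 2 0) (c21 : sn b 2 + P ≤ Dc 2 1 + b) :
    F1 S (fun J F => ptr F J) (vg b) y (jetQ m c 1 3 b (sn b) Dc)
      ((qJets m c 1 3 (K + 2) (fun _ _ => b) (fun l _ => sn b l)
        (fun l j' => sn b l - (j' : ℝ) * b + P)).prod
        ((qJet m ((range 1).image c) (c 1) 0 b (sn b 1) (sn b 1 + N₁)).prod
          (qJet m ((range 2).image c) (c 2) 0 b (sn b 2) (sn b 2 + N₂))))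
      (min e₁ (z / 8)) (TK K * η) := by
  obtain ⟨C₀, htm⟩ := h.tm
  obtain ⟨Q, hQ⟩ : ∃ Q, Q = jetQ m c 1 3 b (sn b) Dc := ⟨_, rfl⟩
  have he : 0 < min e₁ (z / 8) := lt_min he₁ (by linarith)
  have hmz : min e₁ (z / 8) ≤ z / 8 := min_le_right _ _
  -- jets of the place 1, orders 0 and 1
  have o1 : ∀ (j : ℕ), j ≤ 1 → ∀ N : ℝ, N ≤ Dc 1 j → N + (j : ℝ) * b + z ≤ sn b 1 + Λ →
      F1 S (fun J F => ptr F J) (vg b) y Q
        (qJet m ((range 1).image c) (c 1) j b (sn b 1) N) (z / 8) η := by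
    intro j hj N hN hN2
    rw [hQ]
    refine pull_qjets1 (r₀ := 1) (i := 1) (R := 3) (j := j) (J' := 1) htm le_rfl (by norm_num) hj
      (gjetF h le_rfl (by norm_num) hb hA hB le_rfl le_rfl le_rfl
      (fun l a b => absurd b (by omega)) hz
      (lv := fun _ => 1) (fun _ _ _ => one_pos) (fun l a b => absurd b (by omega))
      (fun l a b => absurd b (by omega)) (fun l a b => absurd b (by omega)) hN ?_
      (fun l a b => absurd b (by omega)) hη)
    rw [min_self]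
    exact hN2
  -- jets of the place 1, orders at least 2
  have o2 : ∀ (j : ℕ), 2 ≤ j → j ≤ K + 2 → F1 S (fun J F => ptr F J) (vg b) y Q
        (qJet m ((range 1).image c) (c 1) j b (sn b 1) (D₁ j)) (min e₁ (z / 8)) η := by
    intro j hj hj2
    refine F1.pull htm (Q₁ := jetQ m c 1 1 b (sn b) Nf) (fun _ _ _ => (0 : ℤ))
      (fun K e J F A u hu => ⟨fun i a b => absurd b (by omega), fun _ _ _ _ _ => rfl⟩)
      ((src j hj hj2).mono (min_le_left _ _) le_rfl)
  -- jets of the place 1, all orders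
  obtain ⟨Dg, hDg⟩ : ∃ Dg : ℕ → ℕ → ℝ, Dg = fun _ (j : ℕ) =>
      if j ≤ 1 then sn b 1 + (P + 36 * z) - (j : ℝ) * b else D₁ j := ⟨_, rfl⟩
  have hDg' : ∀ l, 1 ≤ l → l < 2 → ∀ j ≤ K + 2, sn b 1 + (P + 36 * z) ≤ Dg l j + (j : ℕ) * b := by
    intro l _ _ j hj
    rw [hDg]
    by_cases hj1 : j ≤ 1
    · simp only [if_pos hj1]
      linarith
    · simp only [if_neg hj1]
      exact hD j (by omega) hj
  have HJ : JO S (fun J F => ptr F J) (vg b) y Q c 1 2 b (fun l => sn b l) Dg (K + 2)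
      (min e₁ (z / 8)) η := by
    intro l l0 l1 j hj
    obtain rfl : l = 1 := by omega
    rw [hDg]
    by_cases hj1 : j ≤ 1
    · simp only [if_pos hj1]
      refine (o1 j hj1 _ ?_ (by linarith)).mono hmz le_rfl
      rcases Nat.lt_or_ge j 1 with h1 | h1
      · obtain rfl : j = 0 := by omega
        push_cast
        linarith
      · obtain rfl : j = 1 := by omega
        push_cast
        linarith
    · simp only [if_neg hj1]
      exact o2 j (by omega) hj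
  -- jets of the place 2, orders 0 and 1
  have o3 : ∀ (j : ℕ), j ≤ 1 → ∀ N X : ℝ, 0 < X → N ≤ Dc 2 j →
      (∀ j' ≤ j, sn b 1 + X + z ≤ Dc 1 j' + (j' : ℕ) * b) → X + z ≤ Λ →
      N + (j : ℝ) * b + z ≤ sn b 2 + X →
      F1 S (fun J F => ptr F J) (vg b) y Q
        (qJet m ((range 2).image c) (c 2) j b (sn b 2) N) (z / 8) η := by
    intro j hj N X hX hN hX1 hX2 hN2
    rw [hQ]
    refine pull_qjets1 (r₀ := 1) (i := 2) (R := 3) (j := j) (J' := 1) htm (by norm_num)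
      (by norm_num) hj (gjetF h (by norm_num) (by norm_num) hb hA hB le_rfl le_rfl le_rfl
      (fun l a b' => le_rfl) hz (lv := fun _ => X) (fun _ _ _ => hX)
      (fun l a b' j' hj' => ?_) (fun l a b' => ?_) (fun l a b' l' a' b'' => by omega) hN ?_
      (fun l a b' => ?_) hη)
    · obtain rfl : l = 1 := by omega
      exact hX1 j' hj'
    · linarith
    · rw [min_self]
      linarith
    · rw [min_self]
      exact hN2
  have hB1 := gch_B1 h
  obtain ⟨u₁, rd, hrd, hch⟩ := h.ch b hb hA hB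
  have HB : DgB 1 2 (fun l => sn b l) (fun _ => sn b 1 + (P + 36 * z)) Λ z := by
    refine ⟨fun l l0 l1 => ?_, fun l l0 l1 => ?_, fun l l0 l1 l' l0' l1' => by omega⟩
    · obtain rfl : l = 1 := by omega
      show sn b 1 + 30 * z ≤ sn b 1 + (P + 36 * z)
      linarith
    · obtain rfl : l = 1 := by omega
      show sn b 1 + (P + 36 * z) + 30 * z ≤ sn b 1 + Λ
      linarith
  -- jets of the place 2, orders at least 2
  have o4 : ∀ (j : ℕ), 2 ≤ j → j ≤ K + 2 → F1 S (fun J F => ptr F J) (vg b) y Q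
        (qJet m ((range 2).image c) (c 2) j b (sn b 2) (sn b 2 + P - (j : ℕ) * b))
        (min e₁ (z / 8)) ((2 * (K + 2 + 1) : ℕ) * η + η) := by
    intro j hj hj2
    have hm : sn b 2 - z ≤ min Pb (sn b 2) := le_min hPb (by linarith)
    refine (aff_src (Jm := K + 2) (N := fun _ => sn b 1 + (P + 36 * z)) htm
      (hch.take (by norm_num) (by norm_num)) h.Λ0 (by linarith) hz HB hDg' he hη.le HJ
      (fun l l0 l1 j M => gch_exs h hb hA hB l0 (by omega) j M) haf hb'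
      (Ni := sn b 2 + P) (pt := sn b 2) (by linarith) (fun l l0 l1 => ?_) h.pt (gch_kn h hB.le)
      hj hj2 hη).mono (le_min le_rfl hmz) le_rfl
    obtain rfl : l = 1 := by omega
    show sn b 2 + P + 11 * z ≤ min Pb (sn b 2) + (sn b 1 + (P + 36 * z) - sn b 1)
    linarith
  have hK0 : (0 : ℝ) ≤ (2 * (K + 2 + 1) : ℕ) := Nat.cast_nonneg _
  have hKη : 0 ≤ ((2 * (K + 2 + 1) : ℕ) : ℝ) * η := mul_nonneg hK0 hη.le
  have q1 : F1 S (fun J F => ptr F J) (vg b) y Q (qJets m c 1 3 (K + 2) (fun _ _ => b)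
      (fun l _ => sn b l) (fun l j' => sn b l - (j' : ℝ) * b + P)) (min e₁ (z / 8))
      ((3 * (K + 2 + 1) : ℕ) * ((2 * (K + 2 + 1) : ℕ) * η + η)) := by
    refine F1.qjets htm (by linarith) fun i i0 i3 j hj => ?_
    rcases Nat.lt_or_ge i 2 with h1 | h1
    · obtain rfl : i = 1 := by omega
      by_cases hj1 : j ≤ 1
      · refine (o1 j hj1 _ ?_ (by linarith)).mono hmz (by linarith)
        rcases Nat.lt_or_ge j 1 with h1 | h1
        · obtain rfl : j = 0 := by omega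
          push_cast
          linarith
        · obtain rfl : j = 1 := by omega
          push_cast
          linarith
      · have h2 := o2 j (by omega) hj
        have h3 := hD j (by omega) hj
        have h4 := F1.trans htm (gch_exs h hb hA hB le_rfl (by norm_num) j (D₁ j)) he h2
          ((jetF h (by norm_num) hb hA hB (j := j) (le_refl b) (le_refl b) hz
            (p := sn b 1) (p' := sn b 1) (N₁ := D₁ j) (N₂ := sn b 1 - (j : ℝ) * b + P)
            (by linarith) (by rw [min_self]; linarith) hη).mono hmz le_rfl)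
        refine h4.mono le_rfl ?_
        have h5 : (1 : ℝ) ≤ (2 * (K + 2 + 1) : ℕ) := by exact_mod_cast (by omega)
        have := mul_le_mul_of_nonneg_right h5 hη.le
        linarith
    · obtain rfl : i = 2 := by omega
      by_cases hj1 : j ≤ 1
      · refine (o3 j hj1 _ (P + 36 * z) (by linarith) ?_ (fun j' hj' => ?_) (by linarith)
          (by linarith)).mono hmz (by linarith)
        · rcases Nat.lt_or_ge j 1 with h1 | h1
          · obtain rfl : j = 0 := by omega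
            push_cast
            linarith
          · obtain rfl : j = 1 := by omega
            push_cast
            linarith
        · rcases Nat.lt_or_ge j' 1 with h1 | h1
          · obtain rfl : j' = 0 := by omega
            push_cast
            linarith
          · obtain rfl : j' = 1 := by omega
            push_cast
            linarith
      · have h2 := o4 j (by omega) hj
        have e1 : sn b 2 + P - (j : ℕ) * b = sn b 2 - (j : ℝ) * b + P := by ring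
        rw [e1] at h2
        exact h2
  have q2 : F1 S (fun J F => ptr F J) (vg b) y Q
      (qJet m ((range 1).image c) (c 1) 0 b (sn b 1) (sn b 1 + N₁)) (min e₁ (z / 8)) η :=
    (o1 0 (by norm_num) _ c1 (by push_cast; linarith)).mono hmz le_rfl
  have q3 : F1 S (fun J F => ptr F J) (vg b) y Q
      (qJet m ((range 2).image c) (c 2) 0 b (sn b 2) (sn b 2 + N₂)) (min e₁ (z / 8)) η := by
    refine (o3 0 (by norm_num) _ (N₂ + z) (by linarith) c22 (fun j' hj' => ?_) (by linarith)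
      (by push_cast; linarith)).mono hmz le_rfl
    obtain rfl : j' = 0 := by omega
    push_cast
    linarith
  rw [← hQ]
  refine (F1.pair htm q1 (F1.pair htm q2 q3)).mono le_rfl (le_of_eq ?_)
  unfold TK
  push_cast
  ring

end Pool.AVG50
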