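import Pool.Agent.H50.AVN.T3b

/-!
# The pair of places is full: few bits along the windows

`t3_down`: one jet of the place `2` from a later window down to `b`. `t3_up`: the near digits of the
orders `0`, `1` over the labels of `b`, given the velocity of the place `1`, at the record of `o`.
-/

set_option autoImplicit false

namespace Pool.AVG50

open Finset Real MvPolynomial
open Pool.Agent.H49.Ent Pool.Agent.H32.Dense Pool.STK Pool.KA Pool.KSAT Pool.K2S Pool.PB Pool.GEN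
open Pool.S6C Pool.RCD Pool.LA91 Pool.AVG96 Pool.AVG57 Pool.OWN68 Pool.CDX

variable {m : ℕ} {γ : ∀ J : ℕ, Fam m J → Type} {y : ∀ (J : ℕ) (F : Fam m J), F.Ω → γ J F}
  {S : PCl m} {c : ℕ → Fin m} {s A B Λ : ℝ} {sn : ℝ → ℕ → ℝ} {G : Set ℝ}

/-- **One jet of the place `2`** from the window `o` down to the window `b`, small steps. -/
theorem t3_down (h : GCh S (fun J F => ptr F J) y c 1 3 s A B Λ sn G) {b o : ℝ} (hb : b ∈ G)
    (ho : o ∈ G) (hA : A ≤ b) (hbo : b ≤ o) (hB : o < B) {j : ℕ} {z δ N : ℝ} (hz : 0 < z)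
    (hδ : 0 < δ) (gap : ∀ x, b ≤ x → x ≤ o → ∃ v ∈ G, |v - x| ≤ δ) {Dn : ℕ → ℕ → ℝ}
    {lv : ℝ → ℝ} (hlv : ∀ u ∈ G, b ≤ u → u ≤ o → 0 < lv u)
    (g1 : ∀ u ∈ G, b ≤ u → u ≤ o → ∀ j' ≤ j, sn u 1 + lv u + z ≤ Dn 1 j' + (j' : ℕ) * u)
    (g2 : ∀ u ∈ G, b ≤ u → u ≤ o → sn u 1 + lv u + z ≤ sn b 1 + Λ)
    (g3 : N + (j : ℝ) * o + z ≤ sn b 2 + Λ)
    (g4 : ∀ low ∈ G, ∀ up ∈ G, b ≤ low → low ≤ up → up ≤ o → up ≤ low + 3 * δ →
      N + (j : ℝ) * up + z ≤ sn low 2 + lv up)
    (g0 : N + (j : ℝ) * o ≤ sn o 2) :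
    Few S (fun J F => ptr F J) (vg o) y (qJets m c 1 2 j (fun _ _ => b) (fun l _ => sn b l) Dn)
      (qJet m ((range 2).image c) (c 2) j b (sn b 2) N) := by
  obtain ⟨C₀, htm⟩ := h.tm
  have ho1 : o ≤ 1 := (hB.trans h.B1).le
  have hA0 := h.A0
  obtain ⟨n', hn'⟩ := exists_nat_ge ((o - b) / δ)
  obtain ⟨N', bw, b0, bN, hbw, hs⟩ := gseq (h := 3 * δ) (ρ₀ := δ) hb (by linarith) n' o ho hbo
    (by
      rw [div_le_iff₀ hδ] at hn'
      linarith) gap
  obtain ⟨Q, hQ⟩ : ∃ Q, Q = qJets m c 1 2 j (fun _ _ => b) (fun l _ => sn b l) Dn := ⟨_, rfl⟩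
  rw [← hQ]
  have key : ∀ t ≤ N', Few S (fun J F => ptr F J) (vg o) y Q
      (qJet m ((range 2).image c) (c 2) j (bw t) (sn (bw t) 2) N) := by
    intro t
    induction t with
    | zero =>
      intro _
      rw [b0]
      exact Few0.few h.pos (few0_jet htm (by linarith) (hB.trans h.B1) g0 _ _ _)
    | succ t ih =>
      intro ht
      have h3 := ih (by omega)
      obtain ⟨q1, q2⟩ := hs t (by omega)
      obtain ⟨g1', g2', g3'⟩ := hbw t (by omega)
      obtain ⟨g4', g5', g6'⟩ := hbw (t + 1) ht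
      obtain ⟨up, hup⟩ : ∃ up, up = bw t := ⟨_, rfl⟩
      obtain ⟨low, hlow⟩ : ∃ low, low = bw (t + 1) := ⟨_, rfl⟩
      rw [← hup] at h3 q1 q2 g1' g2' g3'
      rw [← hlow] at q1 q2 g4' g5' g6' ⊢
      have hAl : A ≤ low := hA.trans g5'
      have hAu : A ≤ up := hAl.trans q1
      have huB : up < B := g3'.trans_lt hB
      have hj0 : (0 : ℝ) ≤ j := Nat.cast_nonneg j
      have hm : min (sn up 2) (sn low 2) = sn low 2 :=
        min_eq_right (h.mono' (by norm_num) (by norm_num) g4' g1' hAl q1 huB)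
      have hbl := h.mono' (show 1 ≤ 2 by norm_num) (show 2 ≤ 3 by norm_num) hb g4' hA g5'
        (q1.trans_lt huB)
      have hjo : (j : ℝ) * up ≤ (j : ℝ) * o := mul_le_mul_of_nonneg_left g3' hj0
      have st := h.gjet (i := 2) (j := j) (by norm_num) (by norm_num) (w := up) (x₀ := b)
        (x := up) (x' := low) g1' hAu huB g2' le_rfl q1
        (p₀ := sn b) (p := sn up 2) (p' := sn low 2) (N := Dn) (N₁ := N) (N₂ := N)
        (lv := fun _ => lv up) (σ₀ := z)
        (fun l a b' => h.mono' a (by omega) hb g1' hA g2' huB) hz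
        (fun _ _ _ => hlv up g1' g2' g3') (fun l a b' j' hj' => ?_) (fun l a b' => ?_)
        (fun l a b' l' a' b'' => by omega) le_rfl ?_ (fun l a b' => ?_)
      · rw [← hQ] at st
        exact few_cut h.pos (h.exsj g1' hAu huB (by norm_num) (by norm_num) j N) h3
          (Few.up (f' := fun J F => ptr F J) (y' := y) h.pos
          (fun J F => ⟨fun x => x, fun _ => rfl⟩) (fun J F => vg_mono g3' ho1 J F)
          (fun J F => ⟨fun x => x, fun _ => rfl⟩) st)
      · obtain rfl : l = 1 := by omega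
        exact g1 up g1' g2' g3' j' hj'
      · obtain rfl : l = 1 := by omega
        exact g2 up g1' g2' g3'
      · rw [hm]
        linarith
      · rw [hm]
        exact g4 low g4' up g1' g5' q1 g3' q2
  have h5 := key N' le_rfl
  rw [bN] at h5
  exact h5

/-- **The near digits of the places `1`, `2`** over the labels of `b`, given the velocity of the
place `1`, at the record of `o`. -/
theorem t3_up (h : GCh S (fun J F => ptr F J) y c 1 3 s A B Λ sn G) {b o : ℝ} (hb : b ∈ G)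
    (ho : o ∈ G) (hA : A ≤ b) (hbo : b ≤ o) (hB : o < B) {z δ σ₁ σ₂ P nA : ℝ} (hz : 0 < z)
    (hδ : 0 < δ) (gap : ∀ x, b ≤ x → x ≤ o → ∃ v ∈ G, |v - x| ≤ δ) (hσ₁ : 1 < σ₁)
    (hσ : σ₁ ≤ σ₂) (hmesh : σ₂ * (3 * δ) ≤ z) (hP : 0 ≤ P) (hnA : 0 ≤ nA)
    (l1 : ∀ u ∈ G, ∀ v ∈ G, b ≤ u → u ≤ v → v ≤ o → |sn v 1 - sn u 1 - σ₁ * (v - u)| ≤ z)
    (l2 : ∀ u ∈ G, ∀ v ∈ G, b ≤ u → u ≤ v → v ≤ o → |sn v 2 - sn u 2 - σ₂ * (v - u)| ≤ z)
    (o1 : P + 2 * z ≤ (σ₁ - 1) * (o - b)) (o2 : (σ₁ - 1) * (o - b) ≤ P + 4 * z)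
    (hn : nA ≤ P + (o - b)) (hΛ : σ₁ * (o - b) + P + nA + 100 * z ≤ Λ) {Dc : ℕ → ℕ → ℝ}
    (d10 : Dc 1 0 = sn o 1 + 60 * z) (d11 : Dc 1 1 = sn b 1 - b + (P + 40 * z))
    (d20 : Dc 2 0 = sn b 2 + nA) (d21 : Dc 2 1 = sn b 2 - b + P) :
    FewD S (fun J F => ptr F J) (vg o) y
      (qJet m ((range 1).image c) (c 1) 1 b (sn b 1) (sn b 1 - b + (P + 40 * z)))
      (jetQ m c 1 3 b (sn b) Dc) (240 * z * Real.log 2) := by
  obtain ⟨C₀, htm⟩ := h.tm
  have ho1 : o ≤ 1 := (hB.trans h.B1).le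
  have hA0 := h.A0
  have hAo : A ≤ o := hA.trans hbo
  have hbB : b < B := hbo.trans_lt hB
  have m1 := h.mono' (show 1 ≤ 1 by norm_num) (show 1 ≤ 3 by norm_num) hb ho hA hbo hB
  have m2 := h.mono' (show 1 ≤ 2 by norm_num) (show 2 ≤ 3 by norm_num) hb ho hA hbo hB
  have a1 := abs_le.1 (l1 b hb o ho le_rfl hbo le_rfl)
  have a2 := abs_le.1 (l2 b hb o ho le_rfl hbo le_rfl)
  have hbo0 : 0 ≤ o - b := by linarith
  have e1 : (σ₁ - 1) * (o - b) = σ₁ * (o - b) - (o - b) := by ring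
  have e2 : σ₁ * (o - b) ≤ σ₂ * (o - b) := mul_le_mul_of_nonneg_right hσ hbo0
  -- the chain of windows
  have hu : ∀ u ∈ G, b ≤ u → u ≤ o → sn u 1 ≤ sn o 1 ∧
      (σ₁ - 1) * (u - b) ≤ P + 4 * z ∧ sn u 1 - sn b 1 - σ₁ * (u - b) ≤ z ∧
      σ₁ * (o - u) - z ≤ sn o 1 - sn u 1 := by
    intro u hu u1 u2
    have b1 := abs_le.1 (l1 b hb u hu le_rfl u1 u2)
    have b2 := abs_le.1 (l1 u hu o ho u1 u2 le_rfl)
    refine ⟨h.mono' le_rfl (by norm_num) hu ho (hA.trans u1) u2 hB, ?_, b1.2, by linarith⟩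
    exact (mul_le_mul_of_nonneg_left (by linarith) (by linarith)).trans o2
  have hlow : ∀ low ∈ G, ∀ up ∈ G, b ≤ low → low ≤ up → up ≤ o → up ≤ low + 3 * δ →
      σ₁ * (low - b) - z ≤ sn low 2 - sn b 2 ∧ σ₁ * (up - b) ≤ σ₁ * (low - b) + z ∧
      σ₁ * (o - b) ≤ σ₁ * (low - b) + σ₁ * (o - up) + z := by
    intro low hl up hup c1 c2 c3 c4
    have b1 := abs_le.1 (l2 b hb low hl le_rfl c1 (c2.trans c3))
    have b2 : σ₁ * (low - b) ≤ σ₂ * (low - b) := mul_le_mul_of_nonneg_right hσ (by linarith)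
    have b3 : σ₁ * (up - low) ≤ σ₂ * (3 * δ) :=
      mul_le_mul hσ (by linarith) (by linarith) (by linarith)
    refine ⟨by linarith, ?_, ?_⟩
    · have : σ₁ * (up - b) = σ₁ * (low - b) + σ₁ * (up - low) := by ring
      linarith
    · have : σ₁ * (o - b) = σ₁ * (low - b) + σ₁ * (o - up) + σ₁ * (up - low) := by ring
      linarith
  obtain ⟨Q₁, hQ₁⟩ : ∃ Q₁, Q₁ = jetQ m c 1 2 b (sn b) Dc := ⟨_, rfl⟩
  -- the heights of the place 2
  have hd0 : Few S (fun J F => ptr F J) (vg o) y (qJets m c 1 2 0 (fun _ _ => b)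
      (fun l _ => sn b l) Dc) (qJet m ((range 2).image c) (c 2) 0 b (sn b 2) (Dc 2 0)) := by
    refine t3_down h hb ho hA hbo hB hz hδ gap (lv := fun u => sn o 1 - sn u 1 + 59 * z)
      (fun u g u1 u2 => ?_) (fun u g u1 u2 j' hj' => ?_) (fun u g u1 u2 => ?_) ?_
      (fun low hl up hup c1 c2 c3 c4 => ?_) ?_
    · show 0 < sn o 1 - sn u 1 + 59 * z
      linarith [(hu u g u1 u2).1]
    · obtain rfl : j' = 0 := by omega
      rw [d10]
      push_cast
      linarith
    · show sn u 1 + (sn o 1 - sn u 1 + 59 * z) + z ≤ sn b 1 + Λ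
      linarith
    · rw [d20]
      push_cast
      linarith
    · obtain ⟨x1, x2, x3⟩ := hlow low hl up hup c1 c2 c3 c4
      obtain ⟨x4, x5, x6, x7⟩ := hu up hup (c1.trans c2) c3
      rw [d20]
      push_cast
      show sn b 2 + nA + 0 * up + z ≤ sn low 2 + (sn o 1 - sn up 1 + 59 * z)
      linarith
    · rw [d20]
      push_cast
      linarith
  -- the velocity of the place 2
  have hd1 : Few S (fun J F => ptr F J) (vg o) y (qJets m c 1 2 1 (fun _ _ => b)
      (fun l _ => sn b l) Dc) (qJet m ((range 2).image c) (c 2) 1 b (sn b 2) (Dc 2 1)) := by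
    refine t3_down h hb ho hA hbo hB hz hδ gap
      (lv := fun u => min (sn o 1 + 60 * z - sn u 1) (sn b 1 - b + (P + 40 * z) + u - sn u 1) - z)
      (fun u g u1 u2 => ?_) (fun u g u1 u2 j' hj' => ?_) (fun u g u1 u2 => ?_) ?_
      (fun low hl up hup c1 c2 c3 c4 => ?_) ?_
    · obtain ⟨x4, x5, x6, x7⟩ := hu u g u1 u2
      have x8 : (σ₁ - 1) * (u - b) = σ₁ * (u - b) - (u - b) := by ring
      have x9 : 2 * z ≤ min (sn o 1 + 60 * z - sn u 1) (sn b 1 - b + (P + 40 * z) + u - sn u 1) :=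
        le_min (by linarith) (by linarith)
      show 0 < min (sn o 1 + 60 * z - sn u 1) (sn b 1 - b + (P + 40 * z) + u - sn u 1) - z
      linarith
    · rcases Nat.lt_or_ge j' 1 with h1 | h1
      · obtain rfl : j' = 0 := by omega
        rw [d10]
        push_cast
        linarith [min_le_left (sn o 1 + 60 * z - sn u 1)
          (sn b 1 - b + (P + 40 * z) + u - sn u 1)]
      · obtain rfl : j' = 1 := by omega
        rw [d11]
        push_cast
        linarith [min_le_right (sn o 1 + 60 * z - sn u 1)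
          (sn b 1 - b + (P + 40 * z) + u - sn u 1)]
    · show sn u 1 + (min (sn o 1 + 60 * z - sn u 1) (sn b 1 - b + (P + 40 * z) + u - sn u 1) -
        z) + z ≤ sn b 1 + Λ
      linarith [min_le_left (sn o 1 + 60 * z - sn u 1) (sn b 1 - b + (P + 40 * z) + u - sn u 1)]
    · rw [d21]
      push_cast
      linarith
    · obtain ⟨x1, x2, x3⟩ := hlow low hl up hup c1 c2 c3 c4
      obtain ⟨x4, x5, x6, x7⟩ := hu up hup (c1.trans c2) c3
      have x8 : sn b 2 - b + P + up + 2 * z - sn low 2 ≤ min (sn o 1 + 60 * z - sn up 1)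
          (sn b 1 - b + (P + 40 * z) + up - sn up 1) := le_min (by linarith) (by linarith)
      rw [d21]
      push_cast
      show sn b 2 - b + P + 1 * up + z ≤ sn low 2 + (min (sn o 1 + 60 * z - sn up 1)
          (sn b 1 - b + (P + 40 * z) + up - sn up 1) - z)
      linarith
    · rw [d21]
      push_cast
      linarith
  -- the near digits from the digits of the place 1
  have q1 : Few S (fun J F => ptr F J) (vg o) y Q₁ (jetQ m c 1 3 b (sn b) Dc) := by
    rw [hQ₁]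
    refine few_qjets h.pos fun i i0 i3 j hj => ?_
    rcases Nat.lt_or_ge i 2 with h1 | h1
    · obtain rfl : i = 1 := by omega
      refine few_lmap h.pos (fun u => u 1 j) (fun K e J F A u hu => hu.1 1 le_rfl (by norm_num) j hj)
        (h.jet_one (by norm_num) ho hAo hB hbo hbo hz le_rfl ?_)
      rw [min_self]
      rcases Nat.lt_or_ge j 1 with h2 | h2
      · obtain rfl : j = 0 := by omega
        rw [d10]
        push_cast
        linarith
      · obtain rfl : j = 1 := by omega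
        rw [d11]
        push_cast
        linarith
    · obtain rfl : i = 2 := by omega
      rcases Nat.lt_or_ge j 1 with h2 | h2
      · obtain rfl : j = 0 := by omega
        exact few_lmap h.pos (fun u l j'' => if 1 ≤ l ∧ l < 2 ∧ j'' ≤ 0 then u l j'' else 0)
          (fun K e J F A u hu => qJets_take le_rfl (by norm_num) hu) hd0
      · obtain rfl : j = 1 := by omega
        exact hd1
  -- the digits of the place 1
  have q2 : FewD S (fun J F => ptr F J) (vg o) y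
      (qJet m ((range 1).image c) (c 1) 1 b (sn b 1) (sn b 1 - b + (P + 40 * z)))
      (qJet m ((range 1).image c) (c 1) 0 b (sn b 1) (Dc 1 0)) (60 * z * Real.log 2) := by
    have r1 : Few0 S (fun J F => ptr F J) (vg o) y
        (qJet m ((range 1).image c) (c 1) 0 o (sn o 1) (sn o 1)) :=
      few0_jet htm (by linarith) (hB.trans h.B1) (by push_cast; linarith) _ _ _
    have r2 : Few S (fun J F => ptr F J) (vg o) y
        (qJet m ((range 1).image c) (c 1) 0 o (sn o 1) (sn o 1))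
        (qJet m ((range 1).image c) (c 1) 0 b (sn b 1) (sn o 1)) := by
      refine h.jet_one (by norm_num) ho hAo hB le_rfl hbo hz le_rfl ?_
      rw [min_eq_right m1]
      push_cast
      linarith
    have r3 : Few S (fun J F => ptr F J) (vg o) y
        (qJet m ((range 1).image c) (c 1) 1 b (sn b 1) (sn b 1 - b + (P + 40 * z)))
        (qJet m ((range 1).image c) (c 1) 0 b (sn b 1) (sn o 1)) :=
      few_cut h.pos (h.exsj ho hAo hB le_rfl (by norm_num) 0 (sn o 1)) (Few0.few h.pos r1)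
        (few_lmap h.pos Prod.snd (fun K e J F A u hu => hu.2) r2)
    rw [d10]
    refine (more_digits h.pos (show sn o 1 ≤ sn o 1 + 60 * z by linarith) r3).le (le_of_eq ?_)
    ring
  have q3 : Few S (fun J F => ptr F J) (vg o) y
      (qJet m ((range 1).image c) (c 1) 1 b (sn b 1) (sn b 1 - b + (P + 40 * z)))
      (qJet m ((range 1).image c) (c 1) 1 b (sn b 1) (Dc 1 1)) := by
    rw [d11]
    refine h.jet_one (by norm_num) ho hAo hB hbo hbo hz le_rfl ?_
    rw [min_self]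
    push_cast
    linarith
  intro x hx
  obtain ⟨e1', he1, H1⟩ := q2 (x / 8) (by positivity)
  obtain ⟨e2', he2, H2⟩ := q3 (x / 8) (by positivity)
  obtain ⟨e3', he3, H3⟩ := q1 (x / 8) (by positivity)
  obtain ⟨e₀, he₀, hl⟩ := min_list [e1', e2', e3'] (by
    simp only [List.mem_cons, List.not_mem_nil, or_false]
    rintro w (rfl | rfl | rfl) <;> assumption)
  simp only [List.mem_cons, List.not_mem_nil, or_false, forall_eq_or_imp, forall_eq] at hl
  obtain ⟨k1, k2, k3⟩ := hl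
  have hlog : 0 ≤ Real.log 2 := (Real.log_pos one_lt_two).le
  have hz0 : 0 ≤ 60 * z * Real.log 2 := by positivity
  have F1a : F1 S (fun J F => ptr F J) (vg o) y
      (qJet m ((range 1).image c) (c 1) 1 b (sn b 1) (sn b 1 - b + (P + 40 * z))) Q₁ e₀
      ((2 * (1 + 1) : ℕ) * (60 * z * Real.log 2 + x / 8)) := by
    rw [hQ₁]
    refine F1.qjets htm (by positivity) fun i i0 i3 j hj => ?_
    obtain rfl : i = 1 := by omega
    rcases Nat.lt_or_ge j 1 with h2 | h2
    · obtain rfl : j = 0 := by omega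
      exact F1.mono H1 k1 le_rfl
    · obtain rfl : j = 1 := by omega
      exact F1.mono H2 k2 (by linarith)
  have xQ : Exs S Q₁ := by
    rw [hQ₁]
    exact h.exsjs hb hA hbB (by norm_num) 1 Dc
  refine ⟨e₀, he₀, F1.mono (F1.trans htm xQ he₀ F1a (F1.mono H3 k3 le_rfl)) le_rfl ?_⟩
  push_cast
  linarith

end Pool.AVG50
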