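import Pool.Agent.H50.AVN.T3c

/-!
# The pair of places is full: one box

`T3N`: the numbers of a box. `t3_box`: `VfP` in one box, from the fullness behind the own paths at `b`
and from the two mutual informations.
-/

set_option autoImplicit false

namespace Pool.AVG50

open Finset Real MvPolynomial
open Pool.Agent.H49.Ent Pool.Agent.H32.Dense Pool.STK Pool.KA Pool.KSAT Pool.K2S Pool.PB Pool.GEN
open Pool.S6C Pool.RCD Pool.LA91 Pool.AVG96 Pool.AVG57 Pool.OWN68 Pool.CDX Pool.FUL95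

variable {m : ℕ} {γ : ∀ J : ℕ, Fam m J → Type} {y : ∀ (J : ℕ) (F : Fam m J), F.Ω → γ J F}
  {S : PCl m} {c : ℕ → Fin m} {s A B Λ : ℝ} {sn : ℝ → ℕ → ℝ} {G : Set ℝ}

/-- The digits of the near digits. -/
noncomputable def d3 (sn : ℝ → ℕ → ℝ) (b P qp : ℝ) (l j' : ℕ) : ℝ :=
  if l = 1 ∧ j' = 1 then sn b 1 - b + qp else sn b l - (j' : ℝ) * b + P

/-- The near digits are computed from the own paths and the velocity. -/
theorem d3_q {b P qp : ℝ} {K K' : ℕ} {e : ℝ} {J : ℕ} {F : Fam m J} {A' : F.Ω → Prop}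
    {u : F.Ω → ℕ → ℕ → ℤ} {d : F.Ω → ℤ}
    (hu : (qJets m c 1 3 (K + 2) (fun _ _ => b) (fun l _ => sn b l)
      (fun l j' => sn b l - (j' : ℝ) * b + P)).P K' e J F A' u)
    (hd : (qJet m ((range 1).image c) (c 1) 1 b (sn b 1) (sn b 1 - b + qp)).P K' e J F A' d) :
    (jetQ m c 1 3 b (sn b) (d3 sn b P qp)).P K' e J F A' (fun ω => nJ (u ω) (d ω)) := by
  refine ⟨fun i i0 i3 j' hj' => ?_, fun ω hω i j' hn => ?_⟩
  · by_cases h1 : i = 1 ∧ j' = 1
    · obtain ⟨rfl, rfl⟩ := h1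
      have e1 : (fun ω => nJ (u ω) (d ω) 1 1) = d := by
        funext ω
        simp only [nJ, and_self, if_true]
      have e2 : d3 sn b P qp 1 1 = sn b 1 - b + qp := by
        simp only [d3, and_self, if_true]
      rw [e1, e2]
      exact hd
    · have e1 : (fun ω => nJ (u ω) (d ω) i j') = fun ω => u ω i j' := by
        funext ω
        simp only [nJ, if_neg h1, if_pos (show 1 ≤ i ∧ i < 3 ∧ j' ≤ 1 from ⟨i0, i3, hj'⟩)]
      have e2 : d3 sn b P qp i j' = sn b i - (j' : ℝ) * b + P := by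
        simp only [d3, if_neg h1]
      rw [e1, e2]
      exact hu.1 i i0 i3 j' (by omega)
  · show nJ (u ω) (d ω) i j' = 0
    have h1 : ¬ (i = 1 ∧ j' = 1) := fun h2 => hn ⟨by omega, by omega, by omega⟩
    have h2 : ¬ (1 ≤ i ∧ i < 3 ∧ j' ≤ 1) := hn
    simp only [nJ, if_neg h1, if_neg h2]

/-- No place. -/
theorem few_j11 {U : Type} {f' : ∀ (J : ℕ) (F : Fam m J), F.Ω → LnT F}
    (hpos : ∀ (τ : ℝ) (J : ℕ) (F : Fam m J) (A : F.Ω → Prop), S.St τ J F A → 0 < Pe F.p A)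
    {Q : Qt m U} {w : ℝ} {p : ℕ → ℝ} {D : ℕ → ℕ → ℝ} :
    Few S (fun J F => ptr F J) f' y Q (jetQ m c 1 1 w p D) := by
  intro x hx
  refine ⟨1, one_pos, fun K => Bas.mono 0 (pos_bas hpos) ?_⟩
  rintro J - F A' hA' u u' hu hu'
  have hp := (isLaw_cond F.isLaw hA').nonneg
  refine ⟨Unit, fun _ => (), ⟨⟨fun _ => (), fun _ _ => rfl⟩, fun _ => (), fun _ _ => rfl⟩, ?_⟩
  rw [CH_eq_zero hp fun ω ω' hω hω' _ => ?_]
  · positivity
  · funext i j'
    rw [hu'.2 ω (of_cond_pos hω) i j' (by omega), hu'.2 ω' (of_cond_pos hω') i j' (by omega)]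

/-- **The numbers of a box.** `z`: the unit of the errors. -/
structure T3N (G : Set ℝ) (sn : ℝ → ℕ → ℝ) (A B Λ σ₁ σ₂ b w x o z δ q ξ q' X : ℝ)
    (p : ℕ → ℝ) : Prop where
  hb : b ∈ G
  hw : w ∈ G
  ho : o ∈ G
  hA : A ≤ b
  bw : b ≤ w
  wx : w ≤ x
  bo : b ≤ o
  oB : o < B
  wB : w < B
  x1 : x ≤ 1
  z0 : 0 < z
  δ0 : 0 < δ
  q0 : 0 ≤ q
  ξ0 : 14 * z ≤ ξ
  q'0 : 0 ≤ q'
  w1 : sn w 1 ≤ sn b 1 + 2 * z
  w2 : sn w 2 ≤ sn b 2 + 2 * z
  p1 : sn w 1 - z ≤ p 1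
  p1' : p 1 ≤ sn w 1
  p2 : sn w 2 - z ≤ p 2
  p2' : p 2 ≤ sn w 2
  σ1 : 1 < σ₁
  σ2 : σ₁ ≤ σ₂
  gap : ∀ x, b ≤ x → x ≤ o → ∃ v ∈ G, |v - x| ≤ δ
  mesh : σ₂ * (3 * δ) ≤ z
  l1 : ∀ u ∈ G, ∀ v ∈ G, b ≤ u → u ≤ v → v ≤ o → |sn v 1 - sn u 1 - σ₁ * (v - u)| ≤ z
  l2 : ∀ u ∈ G, ∀ v ∈ G, b ≤ u → u ≤ v → v ≤ o → |sn v 2 - sn u 2 - σ₂ * (v - u)| ≤ z
  o1 : q + 8 * z + 2 * z ≤ (σ₁ - 1) * (o - b)
  o2 : (σ₁ - 1) * (o - b) ≤ q + 8 * z + 4 * z
  oξ : ξ ≤ o - b
  hΛ : σ₁ * (o - b) + 3 * q + 3 * ξ + q' + 200 * z ≤ Λ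
  hX : q + ξ + 60 * z ≤ X

/-- **The pair is full** in one box. -/
theorem t3_box (h : GCh S (fun J F => ptr F J) y c 1 3 s A B Λ sn G)
    {σ₁ σ₂ b w x o z δ q ξ q' X : ℝ} {p : ℕ → ℝ}
    (N : T3N G sn A B Λ σ₁ σ₂ b w x o z δ q ξ q' X p) {K : ℕ} {e₁ η : ℝ} (he₁ : 0 < e₁)
    (hη : 0 < η) {D₁ : ℕ → ℝ} {Nf Df : ℕ → ℕ → ℝ}
    (hD : ∀ j : ℕ, 2 ≤ j → j ≤ K + 2 → sn b 1 + (q + 8 * z + 36 * z) ≤ D₁ j + (j : ℝ) * b)
    (src : ∀ j : ℕ, 2 ≤ j → j ≤ K + 2 → F1 S (fun J F => ptr F J) (vg b) y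
      (jetQ m c 1 1 b (sn b) Nf) (qJet m ((range 1).image c) (c 1) j b (sn b 1) (D₁ j)) e₁ η)
    {b' Pb : ℝ} (hb' : b' ≤ b) (hPb : sn b 2 - z ≤ Pb)
    (haf : AffL S ((range 2).image c) (c 2) b' Pb)
    (far : Few S (fun J F => ptr F J) (vg b) y (jetQ m c 1 3 b (sn b) Df)
      (jetQ m c 1 3 b (sn b) (fun l j' => sn b l - (j' : ℝ) * b + X)))
    {ηL ε₁ ε₂ θ : ℝ}
    (hL : FulP S y c (K + 2) b (sn b) (sn b) (q + 8 * z) (q + ξ) (q + ξ - 6 * z) ηL)
    (hM1 : MIw S (fun J F => ptr F J) y b o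
      (qJet m ((range 1).image c) (c 1) 1 b (sn b 1) (sn b 1 - b + (q' + 2 * z)))
      (qJet m ((range 1).image c) (c 1) 1 b (sn b 1) (sn b 1 - b + (q + 8 * z + 40 * z))) ε₁)
    (hM2 : MIw S (fun J F => ptr F J) y b x (jetQ m c 1 3 b (sn b) Df)
      (jetQ m c 1 3 b (sn b) (d3 sn b (q + 8 * z) (q' + 2 * z))) ε₂)
    (hθ : ηL + ε₁ + ε₂ + 542 * z * Real.log 2 + 4 * (TK K * η) < θ) (n n' : ℕ → ℝ) :
    VfP S y c 1 1 K w x p n n' (sn w 1 + q) (sn w 1 + q + ξ) (sn w 1 + q' - w) (sn w 2 + q)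
      (sn w 2 + q + ξ) θ := by
  obtain ⟨C₀, htm⟩ := h.tm
  have hz := N.z0
  have hq := N.q0
  have hξ := N.ξ0
  have hq' := N.q'0
  have hw1 := N.w1
  have hw2 := N.w2
  have hp1 := N.p1
  have hp1' := N.p1'
  have hp2 := N.p2
  have hp2' := N.p2'
  have hbw := N.bw
  have hoξ := N.oξ
  have hΛ := N.hΛ
  have hX := N.hX
  have hB1 := h.B1
  have hA0 := h.A0
  have hbB : b < B := N.bo.trans_lt N.oB
  have hwA : A ≤ w := N.hA.trans hbw
  have hob : 0 ≤ σ₁ * (o - b) := mul_nonneg (by linarith [N.σ1]) (by linarith [N.bo])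
  have b1 := h.mono' (show 1 ≤ 1 by norm_num) (show 1 ≤ 3 by norm_num) N.hb N.hw N.hA hbw N.wB
  have b2 := h.mono' (show 1 ≤ 2 by norm_num) (show 2 ≤ 3 by norm_num) N.hb N.hw N.hA hbw N.wB
  have a1 := abs_le.1 (N.l1 b N.hb o N.ho le_rfl N.bo le_rfl)
  have e1 : (σ₁ - 1) * (o - b) = σ₁ * (o - b) - (o - b) := by ring
  have o1 := N.o1
  have o2 := N.o2
  obtain ⟨P, hP⟩ : ∃ P, P = q + 8 * z := ⟨_, rfl⟩
  rw [← hP] at hD hL hM1 hM2 o1 o2
  obtain ⟨QJ, hQJ⟩ : ∃ QJ, QJ = qJets m c 1 3 (K + 2) (fun _ _ => b) (fun l _ => sn b l)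
    (fun l j' => sn b l - (j' : ℝ) * b + P) := ⟨_, rfl⟩
  -- core, near digits at `b`
  have core : ∀ Dc : ℕ → ℕ → ℝ, sn b 1 + P + 40 * z ≤ Dc 1 0 → sn b 1 + P + 40 * z ≤ Dc 1 1 + b →
      sn b 1 + (q + ξ) ≤ Dc 1 0 → sn b 1 + (q + ξ - 6 * z) + 2 * z ≤ Dc 1 0 →
      sn b 2 + P ≤ Dc 2 0 → sn b 2 + (q + ξ - 6 * z) ≤ Dc 2 0 → sn b 2 + P ≤ Dc 2 1 + b →
      F1 S (fun J F => ptr F J) (vg b) y (jetQ m c 1 3 b (sn b) Dc)
        (QJ.prod ((qJet m ((range 1).image c) (c 1) 0 b (sn b 1) (sn b 1 + (q + ξ))).prod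
          (qJet m ((range 2).image c) (c 2) 0 b (sn b 2) (sn b 2 + (q + ξ - 6 * z)))))
        (min e₁ (z / 8)) (TK K * η) := by
    intro Dc c1 c2 c3 c4 c5 c6 c7
    rw [hQJ]
    exact t3_core h N.hb N.hA hbB hz (by linarith) (by linarith) (by linarith) he₁ hη hD src hb'
      hPb haf (by linarith) c1 c2 c3 c4 c5 c6 c7
  have he0 : 0 < min e₁ (z / 8) := lt_min he₁ (by linarith)
  have hlog : 0 ≤ Real.log 2 := (Real.log_pos one_lt_two).le
  -- the record of `o`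
  have f3 : FewD S (fun J F => ptr F J) (vg o) y
      (qJet m ((range 1).image c) (c 1) 1 b (sn b 1) (sn b 1 - b + (P + 40 * z)))
      (QJ.prod ((qJet m ((range 1).image c) (c 1) 0 b (sn b 1) (sn b 1 + (q + ξ))).prod
        (qJet m ((range 2).image c) (c 2) 0 b (sn b 2) (sn b 2 + (q + ξ - 6 * z)))))
      (240 * z * Real.log 2 + TK K * η) := by
    obtain ⟨Dc, hDc⟩ : ∃ Dc : ℕ → ℕ → ℝ, Dc = fun l j' => if l = 1 then
        (if j' = 0 then sn o 1 + 60 * z else sn b 1 - b + (P + 40 * z)) else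
        (if j' = 0 then sn b 2 + (q + ξ) else sn b 2 - b + P) := ⟨_, rfl⟩
    have d10 : Dc 1 0 = sn o 1 + 60 * z := by rw [hDc]; simp
    have d11 : Dc 1 1 = sn b 1 - b + (P + 40 * z) := by rw [hDc]; simp
    have d20 : Dc 2 0 = sn b 2 + (q + ξ) := by rw [hDc]; simp
    have d21 : Dc 2 1 = sn b 2 - b + P := by rw [hDc]; simp
    have u1 := t3_up h N.hb N.ho N.hA N.bo N.oB hz N.δ0 N.gap N.σ1 N.σ2 N.mesh
      (P := P) (nA := q + ξ) (by linarith) (by linarith) N.l1 N.l2 o1 o2 (by linarith)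
      (by linarith) d10 d11 d20 d21
    have u2 := core Dc (by rw [d10]; linarith) (by rw [d11]; linarith) (by rw [d10]; linarith)
      (by rw [d10]; linarith) (by rw [d20]; linarith) (by rw [d20]; linarith)
      (by rw [d21]; linarith)
    intro t ht
    obtain ⟨e2, he2, H2⟩ := u1 t ht
    refine ⟨min e2 (min e₁ (z / 8)), lt_min he2 he0, F1.mono (F1.trans htm (h.exsjs N.hb N.hA hbB
      (by norm_num) 1 Dc) (lt_min he2 he0) (F1.mono H2 (min_le_left _ _) le_rfl)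
      (F1.mono (F1.up N.bo (by linarith [N.oB]) u2) (min_le_right _ _) le_rfl)) le_rfl ?_⟩
    linarith
  have f4 : FewD S (fun J F => ptr F J) (vg b) y QJ
      (qJet m ((range 1).image c) (c 1) 1 b (sn b 1) (sn b 1 - b + (P + 40 * z)))
      (40 * z * Real.log 2) := by
    have u1 : Few S (fun J F => ptr F J) (vg b) y QJ
        (qJet m ((range 1).image c) (c 1) 1 b (sn b 1) (sn b 1 - b + P)) := by
      rw [hQJ]
      refine few_lmap h.pos (fun u => u 1 1) (fun K e J F A u hu =>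
        hu.1 1 le_rfl (by norm_num) 1 (by omega))
        (h.jet_one (by norm_num) N.hb N.hA hbB le_rfl le_rfl hz ?_ ?_)
      · push_cast
        linarith
      · rw [min_self]
        push_cast
        linarith
    refine (more_digits h.pos (show sn b 1 - b + P ≤ sn b 1 - b + (P + 40 * z) by linarith)
      u1).le (le_of_eq ?_)
    ring
  have f6 : FewD S (fun J F => ptr F J) (vg b) y ((jetQ m c 1 3 b (sn b) Df).prod
      (jetQ m c 1 3 b (sn b) (d3 sn b P (q' + 2 * z))))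
      (QJ.prod ((qJet m ((range 1).image c) (c 1) 0 b (sn b 1) (sn b 1 + (q + ξ))).prod
        (qJet m ((range 2).image c) (c 2) 0 b (sn b 2) (sn b 2 + (q + ξ - 6 * z)))))
      (TK K * η) := by
    have u2 := core (fun l j' => sn b l - (j' : ℝ) * b + X) (by push_cast; linarith)
      (by push_cast; linarith) (by push_cast; linarith) (by push_cast; linarith)
      (by push_cast; linarith) (by push_cast; linarith) (by push_cast; linarith)
    intro t ht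
    obtain ⟨e2, he2, H2⟩ := Few.fst (Q₂ := jetQ m c 1 3 b (sn b) (d3 sn b P (q' + 2 * z))) h.pos
      far t ht
    refine ⟨min e2 (min e₁ (z / 8)), lt_min he2 he0, F1.mono (F1.trans htm (h.exsjs N.hb N.hA hbB
      (by norm_num) 1 _) (lt_min he2 he0) (F1.mono H2 (min_le_left _ _) le_rfl)
      (F1.mono u2 (min_le_right _ _) le_rfl)) le_rfl ?_⟩
    linarith
  obtain ⟨Qe, hQe⟩ : ∃ Qe, Qe = qJet m ((range 1).image c) (c 1) 1 b (sn b 1)
    (sn b 1 - b + (q' + 2 * z)) := ⟨_, rfl⟩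
  rw [← hQe] at hM1
  -- the box
  have g1 : Few S (fun J F => ptr F J) (vg w) y (QJ.prod Qe)
      (qJet m ((range 1).image c) (c 1) 0 w (p 1) (sn w 1 + q)) := by
    rw [hQJ]
    refine few_lmap h.pos (fun u => u.1 1 0) (fun K e J F A u hu =>
      hu.1.1 1 le_rfl (by norm_num) 0 (by omega))
      (h.jet_one (by norm_num) N.hw hwA N.wB hbw le_rfl hz ?_ ?_)
    · push_cast
      linarith
    · have : sn w 1 - 2 * z ≤ min (sn b 1) (p 1) := le_min (by linarith) (by linarith)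
      push_cast
      linarith
  have g2 : Few S (fun J F => ptr F J) (vg w) y (QJ.prod Qe)
      (qJet m ((range 1).image c) (c 1) 1 w (p 1) (sn w 1 + q' - w)) := by
    rw [hQe]
    refine few_lmap h.pos (fun u => u.2) (fun K e J F A u hu => hu.2)
      (h.jet_one (by norm_num) N.hw hwA N.wB hbw le_rfl hz ?_ ?_)
    · linarith
    · have : sn w 1 - 2 * z ≤ min (sn b 1) (p 1) := le_min (by linarith) (by linarith)
      push_cast
      linarith
  have g3 : Few S (fun J F => ptr F J) (vg w) y (QJ.prod Qe)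
      (qJets m c 2 3 (K + 2) (fun _ _ => w) (fun l _ => p l)
        (fun _ j' => sn w 2 + q - (j' : ℝ) * w)) := by
    refine few_qjets h.pos fun i i0 i3 j hj => ?_
    obtain rfl : i = 2 := by omega
    rw [hQJ]
    have hj0 : (0 : ℝ) ≤ j := Nat.cast_nonneg j
    have hm : sn w 2 - 2 * z ≤ min (sn b 2) (p 2) := le_min (by linarith) (by linarith)
    have hjb : (j : ℝ) * b ≤ (j : ℝ) * w := mul_le_mul_of_nonneg_left hbw hj0
    have st := h.gjet (i := 2) (j := j) (by norm_num) (by norm_num) (w := w) (x₀ := b) (x := b)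
      (x' := w) N.hw hwA N.wB hbw hbw le_rfl (p₀ := sn b) (p := sn b 2) (p' := p 2)
      (N := fun l j' => sn b l - (j' : ℝ) * b + P) (N₁ := sn b 2 - (j : ℝ) * b + P)
      (N₂ := sn w 2 + q - (j : ℝ) * w) (lv := fun _ => P - 3 * z) (σ₀ := z)
      (fun l a b' => h.mono' a (by omega) N.hb N.hw N.hA hbw N.wB) hz
      (fun _ _ _ => by linarith) (fun l a b' j' hj' => ?_) (fun l a b' => ?_)
      (fun l a b' l' a' b'' => by omega) (by linarith) (by linarith) (fun l a b' => by linarith)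
    · exact few_lmap h.pos (fun u => ((fun l j'' => if 1 ≤ l ∧ l < 2 ∧ j'' ≤ j then u.1 l j''
        else 0), u.1 2 j)) (fun K' e J F A u hu => by
        exact ⟨qJets_take (by norm_num) hj hu.1, hu.1.1 2 (by norm_num) (by norm_num) j hj⟩) st
    · obtain rfl : l = 1 := by omega
      have hj0' : (0 : ℝ) ≤ j' := Nat.cast_nonneg j'
      have hjb' : (j' : ℝ) * b ≤ (j' : ℝ) * w := mul_le_mul_of_nonneg_left hbw hj0'
      show sn w 1 + (P - 3 * z) + z ≤ sn b 1 - (j' : ℝ) * b + P + (j' : ℝ) * w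
      linarith
    · obtain rfl : l = 1 := by omega
      show sn w 1 + (P - 3 * z) + z ≤ sn b 1 + Λ
      linarith
  have g4a : Few S (fun J F => ptr F J) (vg w) y
      (((qJet m ((range 1).image c) (c 1) 0 w (p 1) (sn w 1 + q + ξ)).prod
        (qJet m ((range 2).image c) (c 2) 0 w (p 2) (sn w 2 + q + ξ))).prod QJ)
      (qJet m ((range 1).image c) (c 1) 0 b (sn b 1) (sn b 1 + (q + ξ))) := by
    refine few_lmap h.pos (fun u => u.1.1) (fun K e J F A u hu => hu.1.1)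
      (h.jet_one (by norm_num) N.hw hwA N.wB le_rfl hbw hz (by linarith) ?_)
    have : sn b 1 - z ≤ min (p 1) (sn b 1) := le_min (by linarith) (by linarith)
    push_cast
    linarith
  have g4b : Few S (fun J F => ptr F J) (vg w) y
      (((qJet m ((range 1).image c) (c 1) 0 w (p 1) (sn w 1 + q + ξ)).prod
        (qJet m ((range 2).image c) (c 2) 0 w (p 2) (sn w 2 + q + ξ))).prod QJ)
      (qJet m ((range 2).image c) (c 2) 0 b (sn b 2) (sn b 2 + (q + ξ - 6 * z))) := by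
    have hm : sn b 2 - z ≤ min (p 2) (sn b 2) := le_min (by linarith) (by linarith)
    have st := h.gjet (i := 2) (j := 0) (by norm_num) (by norm_num) (w := w) (x₀ := w) (x := w)
      (x' := b) N.hw hwA N.wB le_rfl le_rfl hbw (p₀ := p) (p := p 2) (p' := sn b 2)
      (N := fun _ _ => sn w 1 + q + ξ) (N₁ := sn w 2 + q + ξ)
      (N₂ := sn b 2 + (q + ξ - 6 * z)) (lv := fun _ => q + ξ - z) (σ₀ := z)
      (fun l a b' => ?_) hz (fun _ _ _ => by linarith) (fun l a b' j' hj' => ?_)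
      (fun l a b' => ?_) (fun l a b' l' a' b'' => by omega) (by linarith)
      (by push_cast; linarith) (fun l a b' => by push_cast; linarith)
    · refine few_lmap h.pos (fun u => ((fun l j'' => if l = 1 ∧ j'' = 0 then u.1.1 else 0),
        u.1.2)) (fun K' e J F A u hu => by
        refine ⟨⟨fun i i0 i2 j' hj' => ?_, fun ω hω i j' hn => ?_⟩, hu.1.2⟩
        · obtain rfl : i = 1 := by omega
          obtain rfl : j' = 0 := by omega
          exact hu.1.1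
        · show (if i = 1 ∧ j' = 0 then (u ω).1.1 else 0) = 0
          rw [if_neg fun h1 => hn ⟨by omega, by omega, by omega⟩]) st
    · obtain rfl : l = 1 := by omega
      exact hp1'
    · obtain rfl : l = 1 := by omega
      obtain rfl : j' = 0 := by omega
      push_cast
      linarith
    · obtain rfl : l = 1 := by omega
      show sn w 1 + (q + ξ - z) + z ≤ p 1 + Λ
      linarith
  rw [hP] at hL f3 f4 f6 hM1 hM2 hQJ
  have xJ : Exs S QJ := by
    rw [hQJ]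
    exact h.exsjs N.hb N.hA hbB (by norm_num) (K + 2) _
  have xe : Exs S Qe := by
    rw [hQe]
    exact h.exsj N.hb N.hA hbB le_rfl (by norm_num) 1 _
  refine vfp_t3 (QJ := QJ) (Qe := Qe) h.pos N.wx N.x1 (by rw [hQJ]; exact hL) hM1 hM2 f3 f4 f6
    (fun K' e J F A' u d hu hd => ?_) (few_j11 h.pos) g1 g2 g3 (Few.pair h.pos g4a g4b) xJ
    (h.exsj N.hb N.hA hbB le_rfl (by norm_num) 0 _)
    (h.exsj N.hb N.hA hbB (by norm_num) (by norm_num) 0 _)
    (h.exsj N.hb N.hA hbB le_rfl (by norm_num) 1 _) xe (h.exsjs N.hb N.hA hbB (by norm_num) 1 Df) ?_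
  · rw [hQJ] at hu
    rw [hQe] at hd
    exact d3_q hu hd
  · linarith

end Pool.AVG50
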