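import Pool.Agent.H50.AVN.T3d
import Pool.Agent.H83.OWN.Fle

/-!
# The pair of places is full: all boxes at a point, almost every point

`vfPG_pt`: `VfPG` at a point, places `1`, `2`, from `FulG` and from the mutual informations.
`vfPG_t3`: the same at almost every `g`.
-/

set_option autoImplicit false

namespace Pool.AVG50

open Finset Real MvPolynomial MeasureTheory Filter
open Pool.Agent.H49.Ent Pool.Agent.H32.Dense Pool.STK Pool.KA Pool.KSAT Pool.K2S Pool.PB Pool.GEN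
open Pool.S6C Pool.RCD Pool.LA91 Pool.AVG96 Pool.AVG57 Pool.OWN68 Pool.OWN83 Pool.CDX Pool.FUL95
open Pool.VF91 (MvG mv_ae)

variable {m : ℕ} {γ : ∀ J : ℕ, Fam m J → Type} {y : ∀ (J : ℕ) (F : Fam m J), F.Ω → γ J F}
  {S : PCl m} {c : ℕ → Fin m} {s₀ A B Λ : ℝ} {sn : ℝ → ℕ → ℝ} {G : Set ℝ} {g : ℝ} {Sl : ℕ → ℝ}

/-- Nothing to prove. -/
theorem vfp_triv
    (hpos : ∀ (τ : ℝ) (J : ℕ) (F : Fam m J) (A : F.Ω → Prop), S.St τ J F A → 0 < Pe F.p A)
    {r₀ v K : ℕ} {w x : ℝ} {p n n' : ℕ → ℝ} {Na Nb Nd Mu Mb θ : ℝ}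
    (h : ((Nb - Na) + (Mb - Mu)) * Real.log 2 ≤ θ) :
    VfP S y c r₀ v K w x p n n' Na Nb Nd Mu Mb θ := by
  refine ⟨1, one_pos, 1, one_pos, fun K₀ => Bas.mono 0 (pos_bas hpos) ?_⟩
  rintro J - F A' hA' V₁ V₂ z zx - - u₀ a b d g bu - - - - - -
  have hp := (isLaw_cond F.isLaw hA').nonneg
  refine le_trans ?_ (CH_nonneg hp _ _)
  exact mul_nonpos_of_nonpos_of_nonneg (by linarith) (Nat.cast_nonneg J)

/-- The numbers at the place `g`. `M`: the region. -/
theorem vfPG_pt (h : GCh S (fun J F => ptr F J) y c 1 3 s₀ A B Λ sn G)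
    (hS : SlpG sn 1 3 G g Sl) (hm : Sl 1 ≤ Sl 2) {K : ℕ}
    (hsrc : SrcU S c 1 3 s₀ K sn G g 1) (haf : AfG S c sn G g 2) (hful : FulG S c sn G g)
    (HM : ∀ A₁ B₁ Λ₁ p₀ lam : ℚ, IxV A B Λ A₁ B₁ Λ₁ p₀ lam → (A₁ : ℝ) < g → g < B₁ →
      ∀ e κ C : ℝ, 0 < e → 0 < κ → 0 < C →
      MvG S (fun J F => ptr F J) (yZT ((range 1).image c) (p₀ : ℝ) lam) c 1 sn G (Sl 1) g e κ C)
    (HX : ∀ A₁ B₁ Λ₁ p₀ lam : ℚ, IxV A B Λ A₁ B₁ Λ₁ p₀ lam → (A₁ : ℝ) < g → g < B₁ →
      ∀ e κ C : ℝ, 0 < e → 0 < κ → 0 < C → ∃ (a lv : ℕ → ℝ) (σ₀ ρ : ℝ), 0 < ρ ∧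
        (A₁ : ℝ) < g - ρ ∧ g + ρ < B₁ ∧ FarR sn G 1 3 a Λ₁ (g - ρ) (g + ρ) lv σ₀ ∧
        C * ρ ≤ σ₀ / 2 ∧ C * ρ + σ₀ / 2 ≤ Λ₁ ∧ ∀ R : ℝ, 0 < R → R < ρ → ∀ w ∈ G, ∀ j : ℝ,
          g - R ≤ w → w ≤ j → j ≤ g + R → MjR S (fun J F => ptr F J)
            (yZT ((range 1).image c) (p₀ : ℝ) lam) c 1 3 A₁ sn G Sl a e κ C R w j (sn w))
    {C₁ : ℝ} (hC₁ : Sl 1 - 1 ≤ C₁) : VfPG S c 1 1 K C₁ A B Λ sn G g Sl := by
  intro e C Cd ν₀ he hC _ hν
  have hσ1 : 1 < Sl 1 := hS.gt 1 le_rfl (by norm_num)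
  have hσ2 : 1 < Sl 2 := hS.gt 2 (by norm_num) (by norm_num)
  obtain ⟨D, hD⟩ : ∃ D, D = Sl 1 - 1 := ⟨_, rfl⟩
  have hD0 : 0 < D := by linarith
  have hlog0 : 0 < Real.log 2 := Real.log_pos one_lt_two
  have hlog1 : Real.log 2 ≤ 1 := by
    have := Real.log_two_lt_d9
    linarith
  -- the unit of the errors
  obtain ⟨ζ, hζ, z1, z2, z3⟩ : ∃ ζ : ℝ, 0 < ζ ∧ ζ ≤ 1 ∧ ζ ≤ e / 5000 ∧ ζ ≤ ν₀ / 60 :=
    ⟨min 1 (min (e / 5000) (ν₀ / 60)), by positivity, min_le_left _ _,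
      (min_le_right _ _).trans (min_le_left _ _), (min_le_right _ _).trans (min_le_right _ _)⟩
  -- the region
  obtain ⟨M, hM⟩ : ∃ M, M = 4 + (C + 14) / D := ⟨_, rfl⟩
  have hCD : 0 < (C + 14) / D := by positivity
  have hM4 : 4 < M := by linarith
  have hM0 : 0 < M := by linarith
  -- the errors
  obtain ⟨T, hT⟩ : ∃ T : ℝ, T = TK K + 1 := ⟨_, rfl⟩
  have hT0 : 0 < T := by
    have : (0 : ℝ) ≤ TK K := Nat.cast_nonneg _
    linarith
  obtain ⟨eF, heF, f1, f2⟩ : ∃ eF : ℝ, 0 < eF ∧ eF ≤ e / 8 ∧ eF * Sl 2 ≤ ζ := by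
    refine ⟨min (e / 8) (ζ / Sl 2), by positivity, min_le_left _ _, ?_⟩
    have := mul_le_mul_of_nonneg_right (min_le_right (e / 8) (ζ / Sl 2))
      (show (0 : ℝ) ≤ Sl 2 by linarith)
    refine this.trans (le_of_eq ?_)
    field_simp
  obtain ⟨k, φF, hφF, hkF⟩ := hful (K + 2) eF (C + 20) heF (by positivity)
  obtain ⟨Cn, κs, hCn, hκs, hsrc⟩ := hsrc (e / (32 * T) / M) (C + 60) (by positivity)
    (by positivity)
  refine ⟨k, ζ, hζ, ?_⟩
  intro A₁ B₁ Λ₁ p₀ lam hx g1 g2 hlam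
  have hc := gch_ix h hx (y' := yZT ((range 1).image c) (p₀ : ℝ) lam) kn_yZT
  have hc0 := hc.Λ0
  have hA0 := hc.A0
  have hB1 := hc.B1
  have hyk : YkV ((range 1).image c) ((1 / 8) ^ k) (yZT (m := m) ((range 1).image c) (p₀ : ℝ) lam) :=
    ykV_of hx.p1 hlam fun J F => ykZ_psi ykZ_yZT J F
  obtain ⟨ρF, hρF, HF⟩ := hkF _ _ hyk
  obtain ⟨ρs, hρs, Hs⟩ := hsrc _ _ A₁ B₁ Λ₁ hc g1 g2
  obtain ⟨ρv, hρv, Hv⟩ := HM A₁ B₁ Λ₁ p₀ lam hx g1 g2 (e / 8 / M) (ζ / M) (3 * C + 3)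
    (by positivity) (by positivity) (by positivity)
  obtain ⟨a, lv, σ₀, ρx, hρx, hxA, hxB, hF, hC1, hC2, Hx⟩ := HX A₁ B₁ Λ₁ p₀ lam hx g1 g2
    (e / 8 / M) (ζ / M) (3 * C + 70) (by positivity) (by positivity) (by positivity)
  obtain ⟨ρa, hρa, Ha⟩ := haf (ζ / M) (by positivity)
  obtain ⟨ρl, hρl, Hl⟩ := slpG_lev hS hM0 hζ
  obtain ⟨δ₀, hδ₀⟩ : ∃ δ₀, δ₀ = ζ / (3 * Sl 2) := ⟨_, rfl⟩
  have hδ0 : 0 < δ₀ := by rw [hδ₀]; positivity
  have hδS : Sl 2 * (3 * δ₀) = ζ := by rw [hδ₀]; field_simp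
  obtain ⟨ρg, hρg, Hg⟩ := hS.gap (δ₀ / M) (by positivity)
  obtain ⟨Z, hZ⟩ : ∃ Z : ℝ, Z = Sl 1 * M + 8 * C + 210 := ⟨_, rfl⟩
  have hZ0 : 0 < Z := by rw [hZ]; positivity
  obtain ⟨ρ, hρ, hl⟩ := min_list [ρF, ρs / M, ρv / M, ρx / M, ρa / M, ρl, ρg / M, (Λ₁ : ℝ) / Z,
    (g - A₁) / (M + 1), ((B₁ : ℝ) - g) / (M + 1)] (by
    have q1 : 0 < g - (A₁ : ℝ) := by linarith
    have q2 : 0 < (B₁ : ℝ) - g := by linarith
    simp only [List.mem_cons, List.not_mem_nil, or_false]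
    rintro w (rfl | rfl | rfl | rfl | rfl | rfl | rfl | rfl | rfl | rfl) <;> positivity)
  simp only [List.mem_cons, List.not_mem_nil, or_false, forall_eq_or_imp, forall_eq] at hl
  obtain ⟨t1, t2, t3, t4, t5, t6, t7, t8, t9, t10⟩ := hl
  refine ⟨ρ, hρ, ?_⟩
  intro R hR hRρ w hw j x w1 x2 δW q ξ μ ν φ' p s D' _ N hφ' hνR hxC
  have hq := N.q0
  have hξ0 := N.ξ0
  have hμ0 := N.μ0
  have hν0 := N.ν0
  have hwx := N.wx
  have hqC := N.qC
  have s1 := N.sc 1 le_rfl (by norm_num)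
  have s2 := N.sc 2 (by norm_num) (by norm_num)
  have p1 := N.pc 1 le_rfl (by norm_num)
  have p2 := N.pc 2 (by norm_num) (by norm_num)
  have hxw : 0 ≤ x - w := by linarith
  have hνq : ν ≤ q := by
    have k1 := N.xn 1 le_rfl (by norm_num)
    have k2 := mul_nonneg (show 0 ≤ Sl 1 by linarith) hxw
    linarith
  have hC1' : 0 < C₁ := by linarith
  have hCx : D * ξ ≤ C₁ * (ξ + μ + ν) :=
    mul_le_mul (by linarith) (by linarith) hξ0.le hC1'.le
  obtain ⟨z, hz⟩ : ∃ z, z = ζ * R := ⟨_, rfl⟩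
  have hz0 : 0 < z := by rw [hz]; positivity
  have hzR : z ≤ R := by
    rw [hz]
    exact mul_le_of_le_one_left hR.le z1
  have hze : z ≤ e / 5000 * R := by
    rw [hz]
    exact mul_le_mul_of_nonneg_right z2 hR.le
  have hzν : 60 * z ≤ ν := by
    have := mul_le_mul_of_nonneg_right z3 hR.le
    rw [← hz] at this
    have e1 : ν₀ / 60 * R = ν₀ * R / 60 := by ring
    linarith
  have heR : 0 < e * R := by positivity
  have hze' : 5000 * z ≤ e * R := by
    have e1 : e / 5000 * R = e * R / 5000 := by ring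
    linarith
  rw [← hz] at hφ'
  show VfP S _ c 1 1 K w x p _ _ (s 1 + q) (s 1 + q + ξ) (s 1 + (q + ξ + μ + ν) - w) (s 2 + q)
    (s 2 + q + ξ) (e * R)
  rw [s1, s2]
  by_cases hξz : ξ < 14 * z
  · refine vfp_triv h.pos ?_
    have e1 : ((sn w 1 + q + ξ - (sn w 1 + q)) + (sn w 2 + q + ξ - (sn w 2 + q))) * Real.log 2 =
        2 * ξ * Real.log 2 := by ring
    rw [e1]
    have e2 : 2 * ξ * Real.log 2 ≤ 2 * ξ * 1 := mul_le_mul_of_nonneg_left hlog1 (by linarith)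
    linarith
  rw [not_lt] at hξz
  -- scales
  have hRM : ∀ {r : ℝ}, ρ ≤ r / M → M * R < r := by
    intro r hr
    have h1 := hRρ.trans_le hr
    rw [lt_div_iff₀ hM0] at h1
    linarith
  have hMR : 0 < M * R := by positivity
  have hMR4 : 4 * R < M * R := mul_lt_mul_of_pos_right hM4 hR
  have hM1 : ∀ c : ℝ, c / M * (M * R) = c * R := fun c => by field_simp
  have t8' : Z * R ≤ Λ₁ := by
    have h1 := hRρ.trans_le t8
    rw [lt_div_iff₀ hZ0] at h1
    linarith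
  have t9' : (M + 1) * R < g - A₁ := by
    have h1 := hRρ.trans_le t9
    rw [lt_div_iff₀ (by linarith)] at h1
    linarith
  have t10' : (M + 1) * R < B₁ - g := by
    have h1 := hRρ.trans_le t10
    rw [lt_div_iff₀ (by linarith)] at h1
    linarith
  have eM1 : (M + 1) * R = M * R + R := by ring
  -- the window `b`
  have hC20 : R ≤ (C + 20) * R := by
    have : 1 * R ≤ (C + 20) * R := mul_le_mul_of_nonneg_right (by linarith) hR.le
    linarith
  obtain ⟨b, hb, hbw1, hbw, hbF⟩ := HF R hR (hRρ.trans_le t1) w (by linarith) (by linarith)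
  have heFR : Sl 2 * (eF * R) ≤ z := by
    have := mul_le_mul_of_nonneg_right f2 hR.le
    rw [hz]
    linarith
  have heFR1 : eF * R ≤ z := by
    have : 1 * (eF * R) ≤ Sl 2 * (eF * R) :=
      mul_le_mul_of_nonneg_right hσ2.le (by positivity)
    linarith
  have hwb : w - b ≤ eF * R := by linarith
  have hbl : g - M * R ≤ b := by linarith
  have lev : ∀ l, 1 ≤ l → l ≤ 3 → ∀ u ∈ G, ∀ v ∈ G, g - M * R ≤ u → u ≤ v → v ≤ g + M * R →
      |sn v l - sn u l - Sl l * (v - u)| ≤ z := by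
    intro l l0 l3 u hu v hv u1 u2 u3
    rw [hz]
    exact Hl R hR (hRρ.trans_le t6) l l0 l3 u hu v hv u1 u2 u3
  have hSw : ∀ l, 1 ≤ l → l ≤ 2 → Sl l * (w - b) ≤ z := by
    intro l l0 l1
    have hl2 : Sl l ≤ Sl 2 := by
      rcases Nat.lt_or_ge l 2 with h1 | h1
      · obtain rfl : l = 1 := by omega
        exact hm
      · obtain rfl : l = 2 := by omega
        exact le_rfl
    exact (mul_le_mul hl2 hwb (by linarith) (by linarith)).trans heFR
  have hw1 : sn w 1 ≤ sn b 1 + 2 * z := by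
    have := (abs_le.1 (lev 1 le_rfl (by norm_num) b hb w hw hbl hbw (by linarith))).2
    linarith [hSw 1 le_rfl (by norm_num)]
  have hw2 : sn w 2 ≤ sn b 2 + 2 * z := by
    have := (abs_le.1 (lev 2 (by norm_num) (by norm_num) b hb w hw hbl hbw (by linarith))).2
    linarith [hSw 2 (by norm_num) le_rfl]
  -- the window `o`
  obtain ⟨δ, hδ⟩ : ∃ δ, δ = δ₀ * R := ⟨_, rfl⟩
  have hδp : 0 < δ := by rw [hδ]; positivity
  have hδSz : Sl 2 * (3 * δ) = z := by
    rw [hδ, hz, ← hδS]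
    ring
  have gap : ∀ x', g - M * R ≤ x' → x' ≤ g + M * R → ∃ v ∈ G, x' - δ ≤ v ∧ v ≤ x' := by
    intro x' h1 h2
    obtain ⟨u, hu, u1, u2⟩ := Hg (M * R) hMR (hRM t7) x' h1 h2
    rw [hM1] at u1
    exact ⟨u, hu, by rw [hδ]; exact u1, u2⟩
  have hDM : D * (M * R) = 4 * (D * R) + (C + 14) * R := by
    rw [hM]
    field_simp
  have hDR : 0 < D * R := by positivity
  have hqx : q + 12 * z ≤ (C + 12) * R := by
    have e1 : (C + 12) * R = C * R + 12 * R := by ring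
    linarith
  obtain ⟨x₀, hx₀⟩ : ∃ x₀, x₀ = b + (q + 12 * z) / D := ⟨_, rfl⟩
  have hDx : D * (x₀ - b) = q + 12 * z := by
    rw [hx₀]
    field_simp
    ring
  have hx₀b : b ≤ x₀ := by
    have : 0 ≤ (q + 12 * z) / D := by positivity
    linarith
  have hx₀M : x₀ - b ≤ M * R - 4 * R := by
    have h1 : D * (x₀ - b) ≤ D * (M * R - 4 * R) := by
      rw [hDx, mul_sub, hDM]
      have e1 : D * (4 * R) = 4 * (D * R) := by ring
      have e2 : (C + 14) * R = (C + 12) * R + 2 * R := by ring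
      linarith
    exact le_of_mul_le_mul_left h1 hD0
  obtain ⟨o, ho, o1, o2⟩ := gap x₀ (by linarith) (by linarith)
  have hDδ : D * δ ≤ z := by
    have h1 : D * δ ≤ Sl 2 * δ := mul_le_mul_of_nonneg_right (by linarith) hδp.le
    have h2 : 0 < Sl 2 * δ := mul_pos (by linarith) hδp
    linarith
  have hDo1 : D * (x₀ - b) - D * δ ≤ D * (o - b) := by
    have h1 : D * (x₀ - b - δ) ≤ D * (o - b) := mul_le_mul_of_nonneg_left (by linarith) hD0.le
    have e1 : D * (x₀ - b - δ) = D * (x₀ - b) - D * δ := by ring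
    linarith
  have hDo2 : D * (o - b) ≤ D * (x₀ - b) := mul_le_mul_of_nonneg_left (by linarith) hD0.le
  have hoξ : ξ ≤ o - b := by
    have h1 := hxC 1 le_rfl (by norm_num)
    have h2 := mul_nonneg (show 0 ≤ Sl 1 by linarith) hxw
    exact le_of_mul_le_mul_left (show D * ξ ≤ D * (o - b) by linarith) hD0
  have hbo : b ≤ o := by linarith
  have hoM : o ≤ g + M * R := by linarith
  have hob : o - b ≤ M * R := by linarith
  have hsob : Sl 1 * (o - b) ≤ Sl 1 * M * R := by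
    have := mul_le_mul_of_nonneg_left hob (show 0 ≤ Sl 1 by linarith)
    rw [mul_assoc]
    exact this
  have hZR : Z * R = Sl 1 * M * R + 8 * (C * R) + 210 * R := by rw [hZ]; ring
  have hCR : 0 < C * R := by positivity
  have hbA : (A₁ : ℝ) ≤ b := by linarith
  -- the sources
  obtain ⟨e₁, he₁, Dg, hDg, src⟩ := Hs (M * R) hMR (hRM t2) b hb hbl (by linarith) (sn b)
    (fun _ _ => 0) (fun l a b => absurd b (by omega)) (fun l a b => absurd b (by omega))
  obtain ⟨b', Pb, hb', hPb, haf'⟩ := Ha (M * R) hMR (hRM t5) b hb hbl (by linarith)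
  rw [hM1, ← hz] at hPb
  rw [hM1] at src
  have hCM : ∀ c : ℝ, 0 ≤ c → c * R ≤ c * (M * R) := fun c hc0 =>
    mul_le_mul_of_nonneg_left (by linarith) hc0
  -- the far digits
  have hMx : M * R < ρx := hRM t4
  have hC3 : (3 * C + 70) * (M * R) ≤ (3 * C + 70) * ρx :=
    mul_le_mul_of_nonneg_left hMx.le (by positivity)
  have far := hF.near (Λ := (Λ₁ : ℝ)) hc (by norm_num) hxA.le hxB.le
    (w := b) (C' := (3 * C + 70) * (M * R)) hb (by linarith) (by linarith) (by linarith)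
    (by linarith)
    (D := fun l j' => sn b l - (j' : ℝ) * b + (3 * C + 70) * (M * R)) (fun l l0 l1 j' hj' => le_rfl)
  -- the fullness
  have e20 : (C + 20) * R = C * R + 20 * R := by ring
  have hL := hbF (sn b) (q + 8 * z) (q + ξ) (q + ξ - 6 * z) (by linarith) (by linarith)
    (by linarith) (by linarith) (by linarith) (fun l _ _ => by
      have : 0 < φF * R := by positivity
      linarith)
  -- the velocity
  have e33 := hCM (3 * C + 3) (by positivity)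
  have e33' : (3 * C + 3) * R = 3 * (C * R) + 3 * R := by ring
  have hM1' := Hv (M * R) hMR (hRM t3) b hb o hbl hbo hoM (q + 8 * z + 40 * z)
    ((q + ξ + μ + ν) + 2 * z) (by rw [hM1, ← hz, ← hD]; linarith) (by linarith) (by linarith)
  rw [hM1] at hM1'
  -- the record of `x`
  have e70 := hCM (3 * C + 70) (by positivity)
  have e70' : (3 * C + 70) * R = 3 * (C * R) + 70 * R := by ring
  have hxb : ∀ l, 1 ≤ l → l < 3 → Sl l * (x - b) + ζ / M * (M * R) ≤ q + 8 * z := by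
    intro l l0 l1
    rw [hM1, ← hz]
    have k1 := hxC l l0 (by omega)
    have k2 := hSw l l0 (by omega)
    have k3 : 0 ≤ C₁ * (ξ + μ + ν) := mul_nonneg hC1'.le (by linarith)
    have e1 : Sl l * (x - b) = Sl l * (x - w) + Sl l * (w - b) := by ring
    linarith
  have hM2 := (Hx (M * R) hMR hMx b hb x hbl (hbw.trans hwx) (by linarith) (q + 8 * z)
    (d3 sn b (q + 8 * z) ((q + ξ + μ + ν) + 2 * z)) (by linarith) hxb
    (fun l l0 l1 j' hj' => by
      unfold d3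
      by_cases h1 : l = 1 ∧ j' = 1
      · rw [if_pos h1]
        obtain ⟨rfl, rfl⟩ := h1
        push_cast
        constructor <;> linarith
      · rw [if_neg h1]
        constructor <;> linarith)).1
  rw [hM1] at hM2
  have hTK : (0 : ℝ) ≤ TK K := Nat.cast_nonneg _
  have hηR : 0 < e / (32 * T) * R := by positivity
  have hTη : TK K * (e / (32 * T) * R) ≤ e * R / 32 := by
    have h1 : (TK K : ℝ) * (e / (32 * T) * R) ≤ T * (e / (32 * T) * R) :=
      mul_le_mul_of_nonneg_right (by linarith) hηR.le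
    have h2 : T * (e / (32 * T) * R) = e * R / 32 := by field_simp
    linarith
  have hzl : 542 * z * Real.log 2 ≤ 542 * z * 1 := mul_le_mul_of_nonneg_left hlog1 (by positivity)
  have e8 : e / 8 * R = e * R / 8 := by ring
  have hf1 : eF * R ≤ e * R / 8 := by
    have := mul_le_mul_of_nonneg_right f1 hR.le
    linarith
  refine t3_box hc (X := (3 * C + 70) * (M * R)) (q' := q + ξ + μ + ν)
    { hb := hb
      hw := hw
      ho := ho
      hA := hbA
      bw := hbw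
      wx := hwx
      bo := hbo
      oB := by linarith
      wB := by linarith
      x1 := by linarith
      z0 := hz0
      δ0 := hδp
      q0 := hq.le
      ξ0 := hξz
      q'0 := by linarith
      w1 := hw1
      w2 := hw2
      p1 := by linarith [p1.1]
      p1' := p1.2
      p2 := by linarith [p2.1]
      p2' := p2.2
      σ1 := hσ1
      σ2 := hm
      gap := fun x' h1 h2 => by
        obtain ⟨u, hu, u1, u2⟩ := gap x' (by linarith) (by linarith)
        refine ⟨u, hu, ?_⟩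
        rw [abs_le]
        constructor <;> linarith
      mesh := hδSz.le
      l1 := fun u hu v hv u1 u2 u3 => lev 1 le_rfl (by norm_num) u hu v hv (by linarith) u2
        (by linarith)
      l2 := fun u hu v hv u1 u2 u3 => lev 2 (by norm_num) (by norm_num) u hu v hv (by linarith)
        u2 (by linarith)
      o1 := by rw [← hD]; linarith
      o2 := by rw [← hD]; linarith
      oξ := hoξ
      hΛ := by linarith
      hX := by linarith } he₁ hηR
    (fun j j2 jK => by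
      have h1 := hDg j j2 jK
      have h2 := hCM (C + 60) (by positivity)
      have h3 : (C + 60) * R = C * R + 60 * R := by ring
      linarith)
    (fun j j2 jK => src j j2 jK (sn b 1) (by
      have : 0 < κs * (M * R) := by positivity
      linarith)) hb' hPb haf' far hL hM1' hM2 (by linarith) _ _

end Pool.AVG50
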