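import Pool.Agent.H50.AVN.T3e

/-!
# The pair of places is full at almost every point

`vfPG_t3`: `VfPG` for the places `1`, `2` (slopes `Sl 1 ≤ Sl 2`), at almost every `g`, from `FulG`.
-/

set_option autoImplicit false

namespace Pool.AVG50

open Finset Real MvPolynomial MeasureTheory Filter
open Pool.Agent.H49.Ent Pool.Agent.H32.Dense Pool.STK Pool.KA Pool.KSAT Pool.K2S Pool.PB Pool.GEN
open Pool.S6C Pool.RCD Pool.LA91 Pool.AVG96 Pool.AVG57 Pool.OWN68 Pool.OWN83 Pool.CDX Pool.FUL95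
open Pool.VF91 (MvG mv_ae)

/-- **The pair of places is full**, from the fullness behind the own paths: the places `1`, `2`, the
slope of `1` at most the slope of `2`. -/
theorem vfPG_t3 {m : ℕ} {S : PCl m} {c : ℕ → Fin m} {s₀ A B Λ : ℝ} {sn : ℝ → ℕ → ℝ} {G : Set ℝ}
    (X : AsmC S c 1 2 s₀ A B Λ sn G) :
    ∀ᵐ g : ℝ, A < g → g < B → ∀ Sl : ℕ → ℝ, SlpG sn 1 3 G g Sl → Sl 1 ≤ Sl 2 →
      (Sl 1 < 2 ∨ AfG S c sn G g 1) → AfG S c sn G g 2 → FulG S c sn G g →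
      ∀ (K : ℕ) (C₁ : ℝ), Sl 1 - 1 ≤ C₁ → VfPG S c 1 1 K C₁ A B Λ sn G g Sl := by
  obtain ⟨γ, y, h⟩ := X.gch
  have key : ∀ᵐ g : ℝ, ∀ x : {x : ℚ × ℚ × ℚ × ℚ × ℚ //
      IxV A B Λ x.1 x.2.1 x.2.2.1 x.2.2.2.1 x.2.2.2.2}, (x.1.1 : ℝ) < g → g < x.1.2.1 →
      ∀ Sl : ℕ → ℝ, SlpG sn 1 3 G g Sl → ∀ e κ C δ φ : ℝ, 0 < e →
      0 < κ → 0 < C → 0 < δ → 0 ≤ φ → 16 * (((3 : ℕ) : ℝ) + 2) * φ ≤ κ → ∃ a : ℕ → ℝ,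
        (∀ l, 1 ≤ l → l ≤ 3 → a l ∈ G ∧ g < a l ∧ a l < g + δ ∧ a l < (x.1.2.1 : ℝ)) ∧
        ∃ (lv : ℕ → ℝ) (σ₀ ρ : ℝ), 0 < ρ ∧ (x.1.1 : ℝ) < g - ρ ∧ g + ρ < (x.1.2.1 : ℝ) ∧
          FarR sn G 1 3 a (x.1.2.2.1 : ℝ) (g - ρ) (g + ρ) lv σ₀ ∧ C * ρ ≤ σ₀ / 2 ∧
          C * ρ + σ₀ / 2 ≤ (x.1.2.2.1 : ℝ) ∧ φ * ρ ≤ σ₀ / 4 ∧
          ∀ R : ℝ, 0 < R → R < ρ → ∀ w ∈ G, ∀ j : ℝ, g - R ≤ w → w ≤ j → j ≤ g + R →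
            ∀ p : ℕ → ℝ, Rgh sn 1 3 w (φ * R) p → MjR S (fun J F => ptr F J)
              (yZT ((range 1).image c) x.1.2.2.2.1 x.1.2.2.2.2) c 1 3 (x.1.1 : ℝ) sn G Sl a e κ C
              R w j p := by
    rw [ae_all_iff]
    intro x
    exact mj_Gr (gch_ix h x.2 kn_yZT) (X.hnum _ _ _ _ _ x.2) (by norm_num)
  filter_upwards [key, mv_ae h (by norm_num) X.vnum] with g hg1 hg2 hgA hgB Sl hS hm h1 haf hful K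
    C₁ hC₁
  have hsrc : SrcU S c 1 3 s₀ K sn G g 1 := by
    rcases h1 with h1 | h1
    · exact src_natU hS le_rfl (by norm_num) h1 fun l a b => absurd b (by omega)
    · exact src_affU le_rfl (by norm_num) h1 fun l a b => absurd b (by omega)
  refine vfPG_pt h hS hm hsrc haf hful (fun A₁ B₁ Λ₁ p₀ lam hx g1 g2 e κ C he hκ hC => ?_)
    (fun A₁ B₁ Λ₁ p₀ lam hx g1 g2 e κ C he hκ hC => ?_) hC₁
  · exact hg2 Sl hS (hS.gt 1 le_rfl (by norm_num)) A₁ B₁ Λ₁ p₀ lam hx g1 g2 _ _ ykZ_yZT kn_yZT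
      e κ C he hκ hC
  · obtain ⟨a, -, lv, σ₀, ρ, hρ, r1, r2, hF, c1, c2, -, H⟩ :=
      hg1 ⟨(A₁, B₁, Λ₁, p₀, lam), hx⟩ g1 g2 Sl hS e κ C 1 0 he hκ hC one_pos le_rfl (by
        rw [mul_zero]
        exact hκ.le)
    refine ⟨a, lv, σ₀, ρ, hρ, r1, r2, hF, c1, c2, fun R hR hRρ w hw j w1 w2 w3 => ?_⟩
    exact H R hR hRρ w hw j w1 w2 w3 (sn w) (Rgh.self (by rw [zero_mul]))

end Pool.AVG50
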